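import Pool.Agent.W_2cf66e_P.DefsP
import Pool.Agent.W_2cf66e_h88.LoL

/-!
# MP_2cf66e_nt, theorem PS, last step: the grid average (helper57)
-/

set_option autoImplicit false

noncomputable section

open MeasureTheory Set Filter Topology MvPolynomial

namespace Pool.Agent.WSP

/-- a nonzero polynomial does not vanish on a whole grid -/
theorem grid_ne57 {m : ℕ} (A : MvPolynomial (Fin m) ℚ) (hA : A ≠ 0) (z : Fin m → ℝ) :
    ∃ v : Fin m → Fin (A.totalDegree + 1),
      (aeval (fun i => z i - ((v i : ℕ) : ℝ)) A : ℝ) ≠ 0 := by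
  classical
  by_contra hcon
  push Not at hcon
  have hinj : Function.Injective (fun k : ℕ => fun x : ℝ => x - (k : ℝ)) := by
    intro a b hab
    have := congrFun hab 0
    simp only [zero_sub, neg_inj, Nat.cast_inj] at this
    exact this
  have h0 : MvPolynomial.map (algebraMap ℚ ℝ) A = 0 := by
    refine MvPolynomial.eq_zero_of_eval_zero_at_prod_finset _
      (fun i => (Finset.range (A.totalDegree + 1)).image fun k : ℕ => z i - (k : ℝ)) ?_ ?_
    · intro i
      rw [Finset.card_image_of_injective _ (fun a b hab => by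
        have : z i - (a : ℝ) = z i - (b : ℝ) := hab
        exact_mod_cast (sub_right_inj.1 this)), Finset.card_range]
      refine lt_of_le_of_lt ?_ (Nat.lt_succ_self _)
      refine le_trans ?_ (MvPolynomial.degreeOf_le_totalDegree A i)
      rw [MvPolynomial.degreeOf_def, MvPolynomial.degreeOf_def]
      exact Multiset.count_le_of_le _ MvPolynomial.degrees_map_le
    · intro y hy
      choose k hk1 hk2 using fun i => Finset.mem_image.1 (hy i)
      have h1 := hcon (fun i => ⟨k i, Finset.mem_range.1 (hk1 i)⟩)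
      have h2 : (fun i => z i - (((⟨k i, Finset.mem_range.1 (hk1 i)⟩ :
          Fin (A.totalDegree + 1)) : ℕ) : ℝ)) = y := funext fun i => hk2 i
      rw [h2] at h1
      rw [MvPolynomial.eval_map]
      exact h1
  exact hA (MvPolynomial.map_injective _ (algebraMap ℚ ℝ).injective (by rw [h0, map_zero]))

/-- the shifted polynomial -/
def shf57 {m : ℕ} (v : Fin m → ℚ) (f : MvPolynomial (Fin m) ℚ) : MvPolynomial (Fin m) ℚ :=
  MvPolynomial.bind₁ (fun i => MvPolynomial.X i - MvPolynomial.C (v i)) f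

theorem shf_eval57 {m : ℕ} (v : Fin m → ℚ) (f : MvPolynomial (Fin m) ℚ) (z : Fin m → ℝ) :
    (aeval z (shf57 v f) : ℝ) = aeval (fun i => z i - (v i : ℝ)) f := by
  unfold shf57
  rw [MvPolynomial.aeval_bind₁]
  congr 1
  congr 1
  funext i
  simp

/-- clear the denominators of a fraction -/
theorem clr_frac57 {m : ℕ} (N D : MvPolynomial (Fin m) ℚ) :
    ∃ (A B : MvPolynomial (Fin m) ℤ) (c : ℝ), 0 < c ∧ ∀ z : Fin m → ℝ,
      (aeval z A : ℝ) = c * aeval z N ∧ (aeval z B : ℝ) = c * aeval z D := by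
  obtain ⟨a, A, ha, hA⟩ := clear_den68 N
  obtain ⟨b, B, hb, hB⟩ := clear_den68 D
  have key : ∀ (k : ℕ) (F : MvPolynomial (Fin m) ℤ) (f : MvPolynomial (Fin m) ℚ),
      MvPolynomial.map (Int.castRingHom ℚ) F = MvPolynomial.C (k : ℚ) * f →
      ∀ z : Fin m → ℝ, (aeval z F : ℝ) = (k : ℝ) * aeval z f := by
    intro k F f hF z
    have h2 : (aeval z (MvPolynomial.map (Int.castRingHom ℚ) F) : ℝ) = aeval z F := by
      have h3 := MvPolynomial.aeval_map_algebraMap (A := ℚ) (B := ℝ) z F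
      exact h3
    rw [← h2, hF, map_mul, MvPolynomial.aeval_C]
    simp
  have ha' : (0 : ℝ) < (a : ℝ) := by exact_mod_cast ha
  have hb' : (0 : ℝ) < (b : ℝ) := by exact_mod_cast hb
  refine ⟨MvPolynomial.C (b : ℤ) * A, MvPolynomial.C (a : ℤ) * B, (a : ℝ) * b,
    mul_pos ha' hb', fun z => ⟨?_, ?_⟩⟩
  · rw [map_mul, key a A N hA z, MvPolynomial.aeval_C]
    simp only [eq_intCast, Int.cast_natCast]
    ring
  · rw [map_mul, key b B D hB z, MvPolynomial.aeval_C]
    simp only [eq_intCast, Int.cast_natCast]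
    ring

/-- The last step of PS: strict positivity by averaging over a grid of translates. -/
theorem grid_pos57 {m : ℕ} (A0 B0 : MvPolynomial (Fin m) ℚ) (hA : A0 ≠ 0)
    (h0 : ∀ z : Fin m → ℝ, 0 ≤ (aeval z A0 : ℝ)) (hB : ∀ z : Fin m → ℝ, 0 < (aeval z B0 : ℝ))
    (h2 : ∀ z : Fin m → ℝ, 2 * (aeval z A0 : ℝ) ≤ aeval z B0)
    (hi : Integrable (fun z : Fin m → ℝ => (aeval z A0 : ℝ) / aeval z B0)) :
    ∃ A B : MvPolynomial (Fin m) ℤ,
      (∀ z : Fin m → ℝ, 0 < (aeval z A : ℝ) ∧ 2 * (aeval z A : ℝ) ≤ aeval z B) ∧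
      Integrable (fun z : Fin m → ℝ => (aeval z A : ℝ) / aeval z B) ∧
      ∫ z : Fin m → ℝ, (aeval z A : ℝ) / aeval z B =
        ∫ z : Fin m → ℝ, (aeval z A0 : ℝ) / aeval z B0 := by
  classical
  set V := Fin m → Fin (A0.totalDegree + 1) with hV
  set w : V → Fin m → ℚ := fun v i => ((v i : ℕ) : ℚ) with hw
  set a : V → (Fin m → ℝ) → ℝ := fun v z => aeval (fun i => z i - (w v i : ℝ)) A0 with ha
  set b : V → (Fin m → ℝ) → ℝ := fun v z => aeval (fun i => z i - (w v i : ℝ)) B0 with hb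
  have ha0 : ∀ v z, 0 ≤ a v z := fun v z => h0 _
  have hb0 : ∀ v z, 0 < b v z := fun v z => hB _
  have hcard : (0 : ℝ) < (Fintype.card V : ℝ) := by
    exact_mod_cast Fintype.card_pos
  set N : MvPolynomial (Fin m) ℚ := ∑ v : V, shf57 (w v) A0 *
    ∏ u ∈ Finset.univ.erase v, shf57 (w u) B0 with hN
  set D : MvPolynomial (Fin m) ℚ := MvPolynomial.C (Fintype.card V : ℚ) *
    ∏ u : V, shf57 (w u) B0 with hD
  have hNz : ∀ z, (aeval z N : ℝ) = ∑ v : V, a v z * ∏ u ∈ Finset.univ.erase v, b u z := by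
    intro z
    simp only [hN, map_sum, map_mul, map_prod, shf_eval57, ha, hb]
  have hDz : ∀ z, (aeval z D : ℝ) = (Fintype.card V : ℝ) * ∏ u : V, b u z := by
    intro z
    simp only [hD, map_mul, map_prod, shf_eval57, MvPolynomial.aeval_C, hb]
    simp
  have hprod : ∀ z, 0 < ∏ u : V, b u z := fun z => Finset.prod_pos fun u _ => hb0 u z
  have hDpos : ∀ z, 0 < (aeval z D : ℝ) := fun z => by
    rw [hDz]
    exact mul_pos hcard (hprod z)
  have hfrac : ∀ z, (aeval z N : ℝ) / aeval z D =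
      (Fintype.card V : ℝ)⁻¹ * ∑ v : V, a v z / b v z := by
    intro z
    rw [hNz, hDz, Finset.mul_sum, Finset.sum_div]
    refine Finset.sum_congr rfl fun v _ => ?_
    have h3 := Finset.mul_prod_erase Finset.univ (fun u => b u z) (Finset.mem_univ v)
    rw [← h3]
    have h4 : (∏ u ∈ Finset.univ.erase v, b u z) ≠ 0 :=
      (Finset.prod_pos fun u _ => hb0 u z).ne'
    have h5 := (hb0 v z).ne'
    field_simp
  have hNpos : ∀ z, 0 < (aeval z N : ℝ) := by
    intro z
    rw [hNz]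
    obtain ⟨v, hv⟩ := grid_ne57 A0 hA z
    refine Finset.sum_pos' (fun u _ => mul_nonneg (ha0 u z)
      (Finset.prod_nonneg fun t _ => (hb0 t z).le)) ⟨v, Finset.mem_univ v, ?_⟩
    refine mul_pos (lt_of_le_of_ne (ha0 v z) ?_) (Finset.prod_pos fun t _ => hb0 t z)
    have h6 : a v z ≠ 0 := by
      simp only [ha, hw]
      push_cast
      exact hv
    exact h6.symm
  have hhalf : ∀ z, 2 * (aeval z N : ℝ) ≤ aeval z D := by
    intro z
    have h3 : (aeval z N : ℝ) / aeval z D ≤ 1 / 2 := by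
      rw [hfrac]
      have h4 : ∑ v : V, a v z / b v z ≤ ∑ v : V, (1 / 2 : ℝ) := by
        refine Finset.sum_le_sum fun v _ => ?_
        rw [div_le_iff₀ (hb0 v z)]
        have := h2 (fun i => z i - (w v i : ℝ))
        simp only [ha, hb]
        linarith
      rw [Finset.sum_const, nsmul_eq_mul, Finset.card_univ] at h4
      rw [inv_mul_le_iff₀ hcard]
      exact h4
    rw [div_le_iff₀ (hDpos z)] at h3
    linarith
  have hsh : ∀ v : V, Integrable (fun z => a v z / b v z) ∧
      ∫ z, a v z / b v z = ∫ z : Fin m → ℝ, (aeval z A0 : ℝ) / aeval z B0 := by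
    intro v
    have e : (fun z => a v z / b v z) = fun z : Fin m → ℝ =>
        (fun y : Fin m → ℝ => (aeval y A0 : ℝ) / aeval y B0) (z - fun i => (w v i : ℝ)) := rfl
    rw [e]
    exact ⟨hi.comp_sub_right _, integral_sub_right_eq_self
      (fun y : Fin m → ℝ => (aeval y A0 : ℝ) / aeval y B0) (fun i => (w v i : ℝ))⟩
  obtain ⟨A, B, c, hc, hAB⟩ := clr_frac57 N D
  have hfin : (fun z : Fin m → ℝ => (aeval z A : ℝ) / aeval z B) =
      fun z => (Fintype.card V : ℝ)⁻¹ * ∑ v : V, a v z / b v z := by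
    funext z
    rw [(hAB z).1, (hAB z).2, mul_div_mul_left _ _ hc.ne', hfrac]
  refine ⟨A, B, fun z => ⟨?_, ?_⟩, ?_, ?_⟩
  · rw [(hAB z).1]
    exact mul_pos hc (hNpos z)
  · rw [(hAB z).1, (hAB z).2]
    have := mul_le_mul_of_nonneg_left (hhalf z) hc.le
    linarith
  · rw [hfin]
    exact (integrable_finsetSum _ fun v _ => (hsh v).1).const_mul _
  · rw [hfin, integral_const_mul, integral_finsetSum _ fun v _ => (hsh v).1]
    simp only [(hsh _).2]
    rw [Finset.sum_const, nsmul_eq_mul, Finset.card_univ, ← mul_assoc,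
      inv_mul_cancel₀ hcard.ne', one_mul]

end Pool.Agent.WSP
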