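import Pool.Agent.W_2cf66e_h57.Fold57

/-!
# MP_2cf66e_nt (periods), minima of quadratic polynomials: concave and positive (helper57)
-/

set_option autoImplicit false

noncomputable section

open MeasureTheory MvPolynomial
open scoped Classical

namespace Pool.Agent.MinQ57

variable {ι : Type} [Fintype ι]

/-- The minimum of the family `q`. -/
def mn {α : Type} (q : α → MvPolynomial ι ℚ) (z : ι → ℝ) : ℝ := ⨅ a, (aeval z (q a) : ℝ)

theorem cont_aeval (p : MvPolynomial ι ℚ) : Continuous fun y : ι → ℝ => (aeval y p : ℝ) := by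
  have h : (fun y : ι → ℝ => (aeval y p : ℝ))
      = fun y => MvPolynomial.eval y (MvPolynomial.map (algebraMap ℚ ℝ) p) := by
    funext y
    rw [MvPolynomial.eval_map, MvPolynomial.aeval_def]
  rw [h]
  exact MvPolynomial.continuous_eval _

theorem cont_mn {α : Type} [Fintype α] [Nonempty α] (q : α → MvPolynomial ι ℚ) :
    Continuous (mn q) := by
  have h : mn q = fun z => Finset.univ.inf' Finset.univ_nonempty fun a => (aeval z (q a) : ℝ) := by
    funext z
    rw [Finset.inf'_univ_eq_ciInf]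
    rfl
  rw [h]
  exact Continuous.finset_inf'_apply _ fun a _ => cont_aeval (q a)

theorem vol_cube : (volume : Measure (ι → ℝ)) (Set.Icc (0 : ι → ℝ) 1) = 1 := by
  rw [Real.volume_Icc_pi]
  simp

theorem restrict_cube : (volume : Measure (ι → ℝ)).restrict (Set.Icc (0 : ι → ℝ) 1) =
    Measure.pi fun _ : ι => (volume : Measure ℝ).restrict (Set.Icc (0 : ℝ) 1) := by
  rw [← Measure.restrict_pi_pi, volume_pi]
  congr 1
  rw [Set.pi_univ_Icc]
  rfl

theorem int_sq (i : ι) : ∫ z in Set.Icc (0 : ι → ℝ) 1, z i ^ 2 = 1 / 3 := by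
  have : IsProbabilityMeasure ((volume : Measure ℝ).restrict (Set.Icc (0 : ℝ) 1)) :=
    ⟨by simp⟩
  rw [restrict_cube]
  have h := (measurePreserving_eval
    (fun _ : ι => (volume : Measure ℝ).restrict (Set.Icc (0 : ℝ) 1)) i)
  have h1 : ∫ z, z i ^ 2 ∂(Measure.pi fun _ : ι => (volume : Measure ℝ).restrict
      (Set.Icc (0 : ℝ) 1)) = ∫ t in Set.Icc (0 : ℝ) 1, t ^ 2 := by
    have h2 := integral_map (μ := Measure.pi fun _ : ι => (volume : Measure ℝ).restrict
      (Set.Icc (0 : ℝ) 1)) h.measurable.aemeasurable (f := fun t : ℝ => t ^ 2)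
      (by fun_prop)
    rw [h.map_eq] at h2
    exact h2.symm
  rw [h1, integral_Icc_eq_integral_Ioc, ← intervalIntegral.integral_of_le zero_le_one,
    integral_pow]
  norm_num

theorem int_nsq : ∫ z in Set.Icc (0 : ι → ℝ) 1, (aeval z (nsq ι) : ℝ) =
    (Fintype.card ι : ℝ) / 3 := by
  simp_rw [aeval_nsq]
  rw [integral_finsetSum]
  · simp_rw [int_sq]
    rw [Finset.sum_const, Finset.card_univ, nsmul_eq_mul]
    ring
  · intro i _
    refine Continuous.integrableOn_Icc ?_
    fun_prop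

/-- The concave family with the same mean. -/
theorem concave_family {α : Type} [Fintype α] [Nonempty α] (q : α → MvPolynomial ι ℚ)
    (hq : ∀ a, (q a).totalDegree ≤ 2) :
    ∃ r : α → MvPolynomial ι ℚ, (∀ a, (r a).totalDegree ≤ 2) ∧ (∀ a, CC (r a)) ∧
      ∫ z in Set.Icc (0 : ι → ℝ) 1, mn r z = ∫ z in Set.Icc (0 : ι → ℝ) 1, mn q z := by
  obtain ⟨L, hL, hc⟩ := cc_family q hq
  refine ⟨fun a => q a - C L * nsq ι + C (L * (Fintype.card ι / 3)), fun a => ?_,
    fun a => cc_add (hc a) (cc_C _), ?_⟩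
  · refine (totalDegree_add _ _).trans (max_le ?_ ?_)
    · refine (totalDegree_sub _ _).trans (max_le (hq a) ?_)
      refine (totalDegree_mul _ _).trans ?_
      rw [totalDegree_C, zero_add]
      exact nsq_deg
    · rw [totalDegree_C]
      exact Nat.zero_le _
  · have h1 : ∀ z : ι → ℝ, mn (fun a => q a - C L * nsq ι + C (L * (Fintype.card ι / 3))) z =
        mn q z + ((L : ℝ) * ((Fintype.card ι : ℝ) / 3) - L * (aeval z (nsq ι) : ℝ)) := by
      intro z
      have h2 : ∀ a, (aeval z (q a - C L * nsq ι + C (L * (Fintype.card ι / 3))) : ℝ) =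
          aeval z (q a) + ((L : ℝ) * ((Fintype.card ι : ℝ) / 3) - L * (aeval z (nsq ι) : ℝ)) := by
        intro a
        simp only [map_add, map_sub, map_mul, algHom_C, eq_ratCast]
        push_cast
        ring
      unfold mn
      simp_rw [h2]
      apply le_antisymm
      · rw [← sub_le_iff_le_add]
        refine le_ciInf fun a => ?_
        rw [sub_le_iff_le_add]
        exact ciInf_le (Set.finite_range _).bddBelow a
      · refine le_ciInf fun a => ?_
        exact add_le_add (ciInf_le (Set.finite_range _).bddBelow a) le_rfl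
    simp_rw [h1]
    rw [integral_add, integral_sub, setIntegral_const, integral_const_mul, int_nsq,
      measureReal_def, vol_cube]
    · simp
    · exact integrableOn_const (by rw [vol_cube]; exact ENNReal.one_ne_top)
    · exact ((cont_aeval _).const_mul _).integrableOn_Icc
    · exact (cont_mn q).integrableOn_Icc
    · exact (continuous_const.sub ((cont_aeval _).const_mul _)).integrableOn_Icc

theorem aff_mem {N : ℕ} (hN : 0 < N) (ε : ι → Fin N) {y : ι → ℝ}
    (hy : y ∈ Set.Icc (0 : ι → ℝ) 1) : aff N ε y ∈ Set.Icc (0 : ι → ℝ) 1 := by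
  have hN' : (0 : ℝ) < N := by exact_mod_cast hN
  have h1 : ∀ i, ((ε i : ℕ) : ℝ) + 1 ≤ N := fun i => by exact_mod_cast (ε i).isLt
  refine ⟨fun i => ?_, fun i => ?_⟩
  · show (0 : ℝ) ≤ (y i + ((ε i : ℕ) : ℝ)) / N
    have := hy.1 i
    have h0 : (0 : ℝ) ≤ y i := this
    positivity
  · show (y i + ((ε i : ℕ) : ℝ)) / N ≤ 1
    rw [div_le_one hN']
    have h0 : y i ≤ 1 := hy.2 i
    linarith [h1 i]

theorem foldF_osc (h : (ι → ℝ) → ℝ) (hh : Continuous h) (δ : ℝ) (hδ : 0 < δ) :
    ∃ N : ℕ, 0 < N ∧ ∀ y ∈ Set.Icc (0 : ι → ℝ) 1, ∀ y' ∈ Set.Icc (0 : ι → ℝ) 1,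
      foldF N h y' ≤ foldF N h y + δ := by
  have hu := isCompact_Icc.uniformContinuousOn_of_continuous
    (hh.continuousOn (s := Set.Icc (0 : ι → ℝ) 1))
  rw [Metric.uniformContinuousOn_iff] at hu
  obtain ⟨r, hr, hu⟩ := hu δ hδ
  obtain ⟨N, hN⟩ := exists_nat_gt (1 / r)
  have hN0 : (0 : ℝ) < N := lt_trans (by positivity) hN
  have hN1 : 0 < N := by exact_mod_cast hN0
  refine ⟨N, hN1, fun y hy y' hy' => ?_⟩
  have h1 : ∀ ε : ι → Fin N, h (aff N ε y') ≤ h (aff N ε y) + δ := by
    intro ε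
    have h2 : dist (aff N ε y') (aff N ε y) < r := by
      rw [dist_pi_lt_iff hr]
      intro i
      rw [Real.dist_eq]
      have h3 : aff N ε y' i - aff N ε y i = (y' i - y i) / N := by
        unfold aff
        ring
      rw [h3, abs_div, abs_of_pos hN0, div_lt_iff₀ hN0]
      have h4 : |y' i - y i| ≤ 1 := by
        have a1 : (0 : ℝ) ≤ y i := hy.1 i
        have a2 : y i ≤ 1 := hy.2 i
        have a3 : (0 : ℝ) ≤ y' i := hy'.1 i
        have a4 : y' i ≤ 1 := hy'.2 i
        rw [abs_le]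
        constructor <;> linarith
      rw [div_lt_iff₀ hr] at hN
      calc |y' i - y i| ≤ 1 := h4
        _ < N * r := hN
        _ = r * N := mul_comm _ _
    have h5 := hu _ (aff_mem hN1 ε hy') _ (aff_mem hN1 ε hy) h2
    rw [Real.dist_eq] at h5
    have := (abs_lt.1 h5).2
    linarith
  unfold foldF
  have h6 : ∑ ε : ι → Fin N, h (aff N ε y') ≤
      ∑ ε : ι → Fin N, h (aff N ε y) + (N : ℝ) ^ Fintype.card ι * δ := by
    refine (Finset.sum_le_sum fun ε _ => h1 ε).trans (le_of_eq ?_)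
    rw [Finset.sum_add_distrib, Finset.sum_const, Finset.card_univ, Fintype.card_fun,
      Fintype.card_fin, nsmul_eq_mul]
    push_cast
    ring
  have h7 : (0 : ℝ) < (N : ℝ) ^ Fintype.card ι := pow_pos hN0 _
  calc ((N : ℝ) ^ Fintype.card ι)⁻¹ * ∑ ε : ι → Fin N, h (aff N ε y')
      ≤ ((N : ℝ) ^ Fintype.card ι)⁻¹ *
        (∑ ε : ι → Fin N, h (aff N ε y) + (N : ℝ) ^ Fintype.card ι * δ) :=
        mul_le_mul_of_nonneg_left h6 (by positivity)
    _ = _ := by
        rw [mul_add, ← mul_assoc, inv_mul_cancel₀ h7.ne', one_mul]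

/-- A positive integral of a minimum of quadratic polynomials over the cube is the integral of a
positive minimum of concave quadratic polynomials. -/
theorem body57 {α : Type} [Fintype α] [Nonempty α] (q : α → MvPolynomial ι ℚ)
    (hq : ∀ a, (q a).totalDegree ≤ 2)
    (hx : 0 < ∫ z in Set.Icc (0 : ι → ℝ) 1, ⨅ a, (aeval z (q a) : ℝ)) :
    ∃ (β : Type) (_ : Fintype β) (_ : Nonempty β) (r : β → MvPolynomial ι ℚ),
      (∀ b, (r b).totalDegree ≤ 2) ∧
      (∀ b, ConcaveOn ℝ Set.univ fun z : ι → ℝ => (aeval z (r b) : ℝ)) ∧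
      (∀ z ∈ Set.Icc (0 : ι → ℝ) 1, ∀ b, (0 : ℝ) < aeval z (r b)) ∧
      (∫ z in Set.Icc (0 : ι → ℝ) 1, ⨅ b, (aeval z (r b) : ℝ)) =
        ∫ z in Set.Icc (0 : ι → ℝ) 1, ⨅ a, (aeval z (q a) : ℝ) := by
  obtain ⟨s, hs, hc, hi⟩ := concave_family q hq
  set x : ℝ := ∫ z in Set.Icc (0 : ι → ℝ) 1, ⨅ a, (aeval z (q a) : ℝ) with hxdef
  have hsx : ∫ z in Set.Icc (0 : ι → ℝ) 1, mn s z = x := hi
  obtain ⟨N, hN, hosc⟩ := foldF_osc (mn s) (cont_mn s) (x / 2) (by positivity)
  have hfx : ∫ z in Set.Icc (0 : ι → ℝ) 1, foldF N (mn s) z = x := by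
    rw [int_foldF hN _ (cont_mn s), hsx]
  have hfc : Continuous (foldF N (mn s)) := by
    unfold foldF
    exact continuous_const.mul (continuous_finsetSum _ fun ε _ => (cont_mn s).comp (aff_cont N ε))
  have hpos : ∀ y ∈ Set.Icc (0 : ι → ℝ) 1, 0 < foldF N (mn s) y := by
    intro y hy
    have h1 : ∫ z in Set.Icc (0 : ι → ℝ) 1, foldF N (mn s) z ≤
        ∫ z in Set.Icc (0 : ι → ℝ) 1, (foldF N (mn s) y + x / 2) := by
      refine setIntegral_mono_on hfc.integrableOn_Icc
        (integrableOn_const (by rw [vol_cube]; exact ENNReal.one_ne_top)) measurableSet_Icc ?_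
      intro z hz
      exact hosc y hy z hz
    rw [hfx, setIntegral_const, measureReal_def, vol_cube] at h1
    simp only [ENNReal.toReal_one, one_smul] at h1
    linarith
  refine ⟨(ι → Fin N) → α, inferInstance, inferInstance, rr N s, fun b => deg_rr N s b 2 hs,
    fun b => cc_rr N hN s b hc, fun z hz b => ?_, ?_⟩
  · have h1 := hpos z hz
    rw [show foldF N (mn s) z = foldF N (fun z => ⨅ a, (aeval z (s a) : ℝ)) z from rfl,
      ← iInf_rr] at h1
    exact h1.trans_le (ciInf_le (Set.finite_range _).bddBelow b)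
  · rw [← hfx]
    refine setIntegral_congr_fun measurableSet_Icc fun z _ => ?_
    exact iInf_rr N s z

end Pool.Agent.MinQ57
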