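import Mathlib

/-!
# MP_2cf66e_nt (periods), minima of quadratic polynomials: concavity (helper57)
-/

set_option autoImplicit false

noncomputable section

open MeasureTheory MvPolynomial

namespace Pool.Agent.MinQ57

variable {ι : Type} [Fintype ι]

/-- The sum of the squares of the coordinates. -/
def nsq (ι : Type) [Fintype ι] : MvPolynomial ι ℚ := ∑ i, X i ^ 2

theorem aeval_nsq (z : ι → ℝ) : (aeval z (nsq ι) : ℝ) = ∑ i, z i ^ 2 := by
  unfold nsq
  simp

theorem nsq_deg : (nsq ι).totalDegree ≤ 2 := by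
  unfold nsq
  refine (totalDegree_finsetSum _ _).trans ?_
  refine Finset.sup_le fun i _ => ?_
  refine (totalDegree_pow _ _).trans ?_
  rw [totalDegree_X]

/-- The evaluation of `p` is concave. -/
def CC (p : MvPolynomial ι ℚ) : Prop :=
  ConcaveOn ℝ Set.univ fun z : ι → ℝ => (aeval z p : ℝ)

theorem quad_ineq (i j : ι) (c L : ℝ) (hc : |c| ≤ L) (x y : ι → ℝ) (a b : ℝ) (ha : 0 ≤ a)
    (hb : 0 ≤ b) (hab : a + b = 1) :
    a * (c * (x i * x j) - L * ∑ k, x k ^ 2) + b * (c * (y i * y j) - L * ∑ k, y k ^ 2) ≤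
      c * ((a * x i + b * y i) * (a * x j + b * y j)) - L * ∑ k, (a * x k + b * y k) ^ 2 := by
  have hb1 : b = 1 - a := by linarith
  have h1 : ∑ k, (a * x k + b * y k) ^ 2 =
      a * ∑ k, x k ^ 2 + b * ∑ k, y k ^ 2 - a * b * ∑ k, (x k - y k) ^ 2 := by
    rw [Finset.mul_sum, Finset.mul_sum, Finset.mul_sum, ← Finset.sum_add_distrib,
      ← Finset.sum_sub_distrib]
    refine Finset.sum_congr rfl fun k _ => ?_
    rw [hb1]
    ring
  have h2 : ∀ k, (x k - y k) ^ 2 ≤ ∑ k, (x k - y k) ^ 2 := fun k =>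
    Finset.single_le_sum (f := fun k => (x k - y k) ^ 2) (fun k _ => sq_nonneg _)
      (Finset.mem_univ k)
  have h3 : c * ((x i - y i) * (x j - y j)) ≤ L * ∑ k, (x k - y k) ^ 2 := by
    calc c * ((x i - y i) * (x j - y j)) ≤ |c * ((x i - y i) * (x j - y j))| := le_abs_self _
      _ = |c| * |(x i - y i) * (x j - y j)| := abs_mul _ _
      _ ≤ |c| * ∑ k, (x k - y k) ^ 2 := by
          refine mul_le_mul_of_nonneg_left ?_ (abs_nonneg _)
          rw [abs_le]
          constructor
          · nlinarith [h2 i, h2 j, sq_nonneg ((x i - y i) + (x j - y j))]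
          · nlinarith [h2 i, h2 j, sq_nonneg ((x i - y i) - (x j - y j))]
      _ ≤ L * ∑ k, (x k - y k) ^ 2 :=
          mul_le_mul_of_nonneg_right hc (Finset.sum_nonneg fun k _ => sq_nonneg _)
  have h4 : 0 ≤ a * b * (L * ∑ k, (x k - y k) ^ 2 - c * ((x i - y i) * (x j - y j))) :=
    mul_nonneg (mul_nonneg ha hb) (by linarith)
  rw [h1]
  have h5 : c * ((a * x i + b * y i) * (a * x j + b * y j)) =
      a * (c * (x i * x j)) + b * (c * (y i * y j)) -
        a * b * (c * ((x i - y i) * (x j - y j))) := by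
    rw [hb1]
    ring
  rw [h5]
  nlinarith [h4]

theorem cc_quad (i j : ι) (c L : ℚ) (hc : |c| ≤ L) :
    CC (C c * (X i * X j) - C L * nsq ι) := by
  refine ⟨convex_univ, fun x _ y _ a b ha hb hab => ?_⟩
  have hc' : |(c : ℝ)| ≤ (L : ℝ) := by exact_mod_cast hc
  have h := quad_ineq i j (c : ℝ) (L : ℝ) hc' x y a b ha hb hab
  simpa [aeval_nsq] using h

theorem cc_nsq (L : ℚ) (hL : 0 ≤ L) : CC (-(C L * nsq ι)) := by
  refine ⟨convex_univ, fun x _ y _ a b ha hb hab => ?_⟩
  have hL' : 0 ≤ (L : ℝ) := by exact_mod_cast hL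
  have hb1 : b = 1 - a := by linarith
  have h1 : ∑ k, (a * x k + b * y k) ^ 2 =
      a * ∑ k, x k ^ 2 + b * ∑ k, y k ^ 2 - a * b * ∑ k, (x k - y k) ^ 2 := by
    rw [Finset.mul_sum, Finset.mul_sum, Finset.mul_sum, ← Finset.sum_add_distrib,
      ← Finset.sum_sub_distrib]
    refine Finset.sum_congr rfl fun k _ => ?_
    rw [hb1]
    ring
  have h2 : 0 ≤ a * b * (L * ∑ k, (x k - y k) ^ 2) :=
    mul_nonneg (mul_nonneg ha hb) (mul_nonneg hL' (Finset.sum_nonneg fun k _ => sq_nonneg _))
  have h3 : a * (-((L : ℝ) * ∑ k, x k ^ 2)) + b * (-((L : ℝ) * ∑ k, y k ^ 2)) ≤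
      -((L : ℝ) * ∑ k, (a * x k + b * y k) ^ 2) := by
    rw [h1]
    nlinarith [h2]
  simpa [aeval_nsq] using h3

theorem cc_add {p q : MvPolynomial ι ℚ} (hp : CC p) (hq : CC q) : CC (p + q) := by
  have h := ConcaveOn.add hp hq
  unfold CC
  refine h.congr ?_
  intro z _
  simp

theorem cc_C (c : ℚ) : CC (C c : MvPolynomial ι ℚ) := by
  refine ⟨convex_univ, fun x _ y _ a b ha hb hab => ?_⟩
  have h : a * (c : ℝ) + b * (c : ℝ) ≤ c := by
    rw [← add_mul, hab, one_mul]
  simpa using h

theorem cc_lin (i : ι) (c : ℚ) : CC (C c * X i : MvPolynomial ι ℚ) := by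
  refine ⟨convex_univ, fun x _ y _ a b ha hb hab => ?_⟩
  have h : a * ((c : ℝ) * x i) + b * ((c : ℝ) * y i) ≤ c * (a * x i + b * y i) := by
    apply le_of_eq
    ring
  simpa using h

/-- Monomials of degree at most two. -/
theorem mon_cases (m : ι →₀ ℕ) (hm : (m.sum fun _ e => e) ≤ 2) :
    m = 0 ∨ (∃ i, m = Finsupp.single i 1) ∨
      ∃ i j, m = Finsupp.single i 1 + Finsupp.single j 1 := by
  classical
  by_cases h0 : m = 0
  · exact Or.inl h0
  right
  obtain ⟨i, hi⟩ : ∃ i, m i ≠ 0 := by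
    by_contra h
    push Not at h
    exact h0 (Finsupp.ext h)
  have hle : Finsupp.single i 1 ≤ m := by
    rw [Finsupp.single_le_iff]
    omega
  obtain ⟨m', rfl⟩ : ∃ m', m = Finsupp.single i 1 + m' :=
    ⟨m - Finsupp.single i 1, (add_tsub_cancel_of_le hle).symm⟩
  have hs : ((Finsupp.single i 1 + m').sum fun _ e => e) = 1 + m'.sum fun _ e => e := by
    rw [Finsupp.sum_add_index' (fun _ => rfl) (fun _ _ _ => rfl)]
    simp
  by_cases h1 : m' = 0
  · left
    exact ⟨i, by rw [h1, add_zero]⟩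
  right
  obtain ⟨j, hj⟩ : ∃ j, m' j ≠ 0 := by
    by_contra h
    push Not at h
    exact h1 (Finsupp.ext h)
  have hle' : Finsupp.single j 1 ≤ m' := by
    rw [Finsupp.single_le_iff]
    omega
  obtain ⟨m'', rfl⟩ : ∃ m'', m' = Finsupp.single j 1 + m'' :=
    ⟨m' - Finsupp.single j 1, (add_tsub_cancel_of_le hle').symm⟩
  have hs' : ((Finsupp.single j 1 + m'').sum fun _ e => e) = 1 + m''.sum fun _ e => e := by
    rw [Finsupp.sum_add_index' (fun _ => rfl) (fun _ _ _ => rfl)]
    simp
  have h2 : m'' = 0 := by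
    by_contra h
    obtain ⟨k, hk⟩ : ∃ k, m'' k ≠ 0 := by
      by_contra h'
      push Not at h'
      exact h (Finsupp.ext h')
    have h3 : m'' k ≤ m''.sum fun _ e => e :=
      Finset.single_le_sum (f := fun k => m'' k) (fun _ _ => Nat.zero_le _)
        (Finsupp.mem_support_iff.2 hk)
    omega
  exact ⟨i, j, by rw [h2, add_zero]⟩

/-- Every polynomial of degree at most two becomes concave after subtracting a multiple of the
sum of the squares. -/
theorem cc_exists (p : MvPolynomial ι ℚ) (hp : p.totalDegree ≤ 2) :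
    ∃ L : ℚ, 0 ≤ L ∧ CC (p - C L * nsq ι) := by
  classical
  have key : ∀ s : Finset (ι →₀ ℕ), (∀ m ∈ s, (m.sum fun _ e => e) ≤ 2) →
      ∃ L : ℚ, 0 ≤ L ∧ CC ((∑ m ∈ s, monomial m (coeff m p)) - C L * nsq ι) := by
    intro s
    induction s using Finset.induction_on with
    | empty =>
      intro _
      refine ⟨0, le_rfl, ?_⟩
      have : (∑ m ∈ (∅ : Finset (ι →₀ ℕ)), monomial m (coeff m p)) - C 0 * nsq ι = C 0 := by
        simp
      rw [this]
      exact cc_C 0
    | insert m s hms ih =>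
      intro h
      obtain ⟨L, hL, hc⟩ := ih fun k hk => h k (Finset.mem_insert_of_mem hk)
      have hm := mon_cases m (h m (Finset.mem_insert_self _ _))
      have hmon : ∃ L' : ℚ, 0 ≤ L' ∧ CC (monomial m (coeff m p) - C L' * nsq ι) := by
        rcases hm with h0 | ⟨i, h1⟩ | ⟨i, j, h2⟩
        · refine ⟨0, le_rfl, ?_⟩
          have : monomial m (coeff m p) - C 0 * nsq ι = C (coeff m p) := by
            rw [h0]
            simp
          rw [this]
          exact cc_C _
        · refine ⟨0, le_rfl, ?_⟩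
          have : monomial m (coeff m p) - C 0 * nsq ι = C (coeff m p) * X i := by
            rw [C_0, zero_mul, sub_zero]
            conv_lhs => rw [h1]
            rw [← C_mul_X_eq_monomial, ← h1]
          rw [this]
          exact cc_lin _ _
        · refine ⟨|coeff m p|, abs_nonneg _, ?_⟩
          have : monomial m (coeff m p) = C (coeff m p) * (X i * X j) := by
            rw [X, X, monomial_mul, C_mul_monomial, ← h2]
            simp
          rw [this]
          exact cc_quad i j _ _ le_rfl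
      obtain ⟨L', hL', hc'⟩ := hmon
      refine ⟨L + L', add_nonneg hL hL', ?_⟩
      have : (∑ k ∈ insert m s, monomial k (coeff k p)) - C (L + L') * nsq ι =
          ((∑ k ∈ s, monomial k (coeff k p)) - C L * nsq ι) +
            (monomial m (coeff m p) - C L' * nsq ι) := by
        rw [Finset.sum_insert hms, C_add]
        ring
      rw [this]
      exact cc_add hc hc'
  obtain ⟨L, hL, h⟩ := key p.support fun m hm => (le_totalDegree hm).trans hp
  refine ⟨L, hL, ?_⟩
  rwa [support_sum_monomial_coeff] at h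

/-- A common multiple for a finite family. -/
theorem cc_family {α : Type} [Fintype α] (q : α → MvPolynomial ι ℚ)
    (hq : ∀ a, (q a).totalDegree ≤ 2) : ∃ L : ℚ, 0 ≤ L ∧ ∀ a, CC (q a - C L * nsq ι) := by
  classical
  choose L hL hc using fun a => cc_exists (q a) (hq a)
  refine ⟨∑ a, L a, Finset.sum_nonneg fun a _ => hL a, fun a => ?_⟩
  have h1 : L a ≤ ∑ a, L a := Finset.single_le_sum (fun a _ => hL a) (Finset.mem_univ a)
  have h2 := cc_add (hc a) (cc_nsq (ι := ι) (∑ a, L a - L a) (by linarith))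
  have h3 : q a - C (L a) * nsq ι + -(C (∑ a, L a - L a) * nsq ι) =
      q a - C (∑ a, L a) * nsq ι := by
    rw [C_sub]
    ring
  rwa [h3] at h2

end Pool.Agent.MinQ57
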