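import Pool.Agent.W_2cf66e_h57.Unit57
import Pool.Agent.W_2cf66e_h65.GAvg

/-!
# MP_2cf66e_nt (periods), minima of quadratic polynomials: the average over the signs (helper57)
-/

set_option autoImplicit false

noncomputable section

open MeasureTheory MvPolynomial
open scoped Classical

namespace Pool.Agent.MinQ57

open Pool.Agent.CVol (box)

/-- The sign of a Boolean. -/
def sg (b : Bool) : ℚ := if b then 1 else -1

theorem sg_cases (b : Bool) : ((sg b : ℚ) : ℝ) = 1 ∨ ((sg b : ℚ) : ℝ) = -1 := by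
  cases b
  · right
    simp [sg]
  · left
    simp [sg]

/-- The point `(1 + ε z) / 2`. -/
def pt {n : ℕ} (ε : Fin n → Bool) (z : Fin n → ℝ) : Fin n → ℝ :=
  fun i => (1 + ((sg (ε i) : ℚ) : ℝ) * z i) / 2

/-- The even average of `h`. -/
def ev {n : ℕ} (h : (Fin n → ℝ) → ℝ) (z : Fin n → ℝ) : ℝ :=
  ((4 : ℝ) ^ n)⁻¹ * ∑ ε : Fin n → Bool, h (pt ε z)

theorem pt_cont {n : ℕ} (ε : Fin n → Bool) : Continuous (pt ε) := by
  unfold pt
  fun_prop

theorem ev_cont {n : ℕ} {h : (Fin n → ℝ) → ℝ} (hh : Continuous h) : Continuous (ev h) := by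
  unfold ev
  exact continuous_const.mul (continuous_finsetSum _ fun ε _ => hh.comp (pt_cont ε))

theorem pt_mem {n : ℕ} (ε : Fin n → Bool) {z : Fin n → ℝ} (hz : z ∈ box (Fin n)) :
    pt ε z ∈ Set.Icc (0 : Fin n → ℝ) 1 := by
  have h1 : ∀ i, -1 ≤ z i := fun i => hz.1 i
  have h2 : ∀ i, z i ≤ 1 := fun i => hz.2 i
  refine ⟨fun i => ?_, fun i => ?_⟩
  · show (0 : ℝ) ≤ (1 + ((sg (ε i) : ℚ) : ℝ) * z i) / 2
    rcases sg_cases (ε i) with h | h <;> rw [h] <;> linarith [h1 i, h2 i]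
  · show (1 + ((sg (ε i) : ℚ) : ℝ) * z i) / 2 ≤ 1
    rcases sg_cases (ε i) with h | h <;> rw [h] <;> linarith [h1 i, h2 i]

theorem ev_pos {n : ℕ} {h : (Fin n → ℝ) → ℝ} (hp : ∀ y ∈ Set.Icc (0 : Fin n → ℝ) 1, 0 < h y)
    {z : Fin n → ℝ} (hz : z ∈ box (Fin n)) : 0 < ev h z := by
  unfold ev
  refine mul_pos (by positivity) (Finset.sum_pos (fun ε _ => hp _ (pt_mem ε hz)) ?_)
  exact Finset.univ_nonempty

theorem int_ev {n : ℕ} {h : (Fin n → ℝ) → ℝ} (hh : Continuous h) :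
    ∫ z in box (Fin n), ev h z = ∫ y in Set.Icc (0 : Fin n → ℝ) 1, h y := by
  unfold ev
  have hcpt : IsCompact (box (Fin n)) := isCompact_Icc
  rw [integral_const_mul, integral_finsetSum]
  · have h1 : ∀ ε : Fin n → Bool, ∫ z in box (Fin n), h (pt ε z) =
        2 ^ n * ∫ y in Set.Icc (0 : Fin n → ℝ) 1, h y := by
      intro ε
      have h2 := Pool.Agent.CVol.int_sign_box (fun z => h (fun i => (1 + z i) / 2))
        (fun i => ((sg (ε i) : ℚ) : ℝ)) (fun i => sg_cases (ε i))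
      have h3 : ∫ z in box (Fin n), h (pt ε z) =
          ∫ z in box (Fin n), h (fun i => (1 + z i) / 2) := h2
      rw [h3]
      have h4 := int_box_unit (ι := Fin n) (fun z => h (fun i => (1 + z i) / 2))
      rw [Fintype.card_fin] at h4
      refine Eq.trans h4 ?_
      congr 1
      refine setIntegral_congr_fun measurableSet_Icc fun y _ => ?_
      show h _ = h y
      congr 1
      funext i
      ring
    simp_rw [h1]
    rw [Finset.sum_const, Finset.card_univ, Fintype.card_fun, Fintype.card_bool,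
      Fintype.card_fin, nsmul_eq_mul]
    push_cast
    rw [← mul_assoc, ← mul_assoc, mul_assoc ((4 : ℝ) ^ n)⁻¹, ← mul_pow]
    norm_num
  · intro ε _
    exact (hh.comp (pt_cont ε)).continuousOn.integrableOn_compact hcpt

theorem ev_sign {n : ℕ} (h : (Fin n → ℝ) → ℝ) (δ : Fin n → ℝ) (hδ : ∀ i, δ i = 1 ∨ δ i = -1)
    (z : Fin n → ℝ) : ev h (fun i => δ i * z i) = ev h z := by
  unfold ev
  congr 1
  let e : (Fin n → Bool) ≃ (Fin n → Bool) :=
    Equiv.piCongrRight fun i => if δ i = 1 then Equiv.refl Bool else Equiv.boolNot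
  refine Fintype.sum_equiv e _ _ fun ε => ?_
  congr 1
  funext i
  show (1 + ((sg (ε i) : ℚ) : ℝ) * (δ i * z i)) / 2 =
    (1 + ((sg ((if δ i = 1 then Equiv.refl Bool else Equiv.boolNot) (ε i)) : ℚ) : ℝ) * z i) / 2
  rcases hδ i with h1 | h1
  · rw [h1, if_pos rfl]
    simp
  · have h2 : ¬ (δ i = 1) := by
      rw [h1]
      norm_num
    rw [if_neg h2, h1]
    cases ε i <;> simp [sg]

/-- The polynomials of the even average. -/
def es {n : ℕ} {α : Type} (r : α → MvPolynomial (Fin n) ℚ) (ψ : (Fin n → Bool) → α) :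
    MvPolynomial (Fin n) ℚ :=
  C ((4 : ℚ) ^ n)⁻¹ * ∑ ε : Fin n → Bool,
    bind₁ (fun i => C (1 / 2) * (C 1 + C (sg (ε i)) * X i)) (r (ψ ε))

theorem aeval_es {n : ℕ} {α : Type} (r : α → MvPolynomial (Fin n) ℚ)
    (ψ : (Fin n → Bool) → α) (z : Fin n → ℝ) : (aeval z (es r ψ) : ℝ) =
      ((4 : ℝ) ^ n)⁻¹ * ∑ ε : Fin n → Bool, (aeval (pt ε z) (r (ψ ε)) : ℝ) := by
  unfold es
  rw [map_mul, map_sum]
  congr 1
  · simp
  · refine Finset.sum_congr rfl fun ε _ => ?_
    rw [aeval_bind₁]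
    congr 2
    funext i
    simp only [pt, map_mul, map_add, aeval_X, algHom_C, eq_ratCast]
    push_cast
    ring

theorem iInf_es {n : ℕ} {α : Type} [Fintype α] [Nonempty α] (r : α → MvPolynomial (Fin n) ℚ)
    (z : Fin n → ℝ) : (⨅ ψ : (Fin n → Bool) → α, (aeval z (es r ψ) : ℝ)) = ev (mn r) z := by
  unfold ev mn
  rw [sum_iInf, mul_iInf' _ (by positivity)]
  refine iInf_congr fun ψ => ?_
  rw [aeval_es]

theorem deg_es {n : ℕ} {α : Type} (r : α → MvPolynomial (Fin n) ℚ) (ψ : (Fin n → Bool) → α)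
    (k : ℕ) (hr : ∀ a, (r a).totalDegree ≤ k) : (es r ψ).totalDegree ≤ k := by
  unfold es
  refine (totalDegree_mul _ _).trans ?_
  rw [totalDegree_C, zero_add]
  refine (totalDegree_finsetSum _ _).trans (Finset.sup_le fun ε _ => ?_)
  refine (deg_bind _ (fun i => ?_) _).trans (hr _)
  refine (totalDegree_mul _ _).trans ?_
  rw [totalDegree_C, zero_add]
  refine (totalDegree_add _ _).trans (max_le ?_ ?_)
  · rw [totalDegree_C]
    exact Nat.zero_le _
  · refine (totalDegree_mul _ _).trans ?_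
    rw [totalDegree_C, totalDegree_X]

theorem cc_es {n : ℕ} {α : Type} (r : α → MvPolynomial (Fin n) ℚ) (ψ : (Fin n → Bool) → α)
    (hr : ∀ a, CC (r a)) : CC (es r ψ) := by
  refine ⟨convex_univ, fun x _ y _ a b ha hb hab => ?_⟩
  show a * (aeval x (es r ψ) : ℝ) + b * (aeval y (es r ψ) : ℝ) ≤
    (aeval (a • x + b • y) (es r ψ) : ℝ)
  rw [aeval_es, aeval_es, aeval_es]
  have h1 : ∀ s : ℝ, ∀ κ S : ℝ, s * (κ * S) = κ * (s * S) := fun s κ S => by ring
  rw [h1 a, h1 b, ← mul_add, Finset.mul_sum, Finset.mul_sum, ← Finset.sum_add_distrib]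
  refine mul_le_mul_of_nonneg_left (Finset.sum_le_sum fun ε _ => ?_) (by positivity)
  have h2 : pt ε (a • x + b • y) = a • pt ε x + b • pt ε y := by
    funext i
    simp only [pt, Pi.add_apply, Pi.smul_apply, smul_eq_mul]
    have hb1 : b = 1 - a := by linarith
    rw [hb1]
    ring
  rw [h2]
  exact (hr (ψ ε)).2 (Set.mem_univ _) (Set.mem_univ _) ha hb hab

end Pool.Agent.MinQ57
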