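import Mathlib

set_option autoImplicit false

noncomputable section

open MeasureTheory Set

namespace Pool.Agent.W_2cf66e_h57

/-- The fold of the plane. -/
def fT (p : ℝ × ℝ) : ℝ × ℝ :=
  (p.1 ^ 2 / (p.1 ^ 2 + p.2 ^ 2), (p.1 ^ 2 + p.2 ^ 2) ^ 2 / (2 * p.1 * p.2))

/-- Its derivative. -/
def fD (p : ℝ × ℝ) : ℝ × ℝ →L[ℝ] ℝ × ℝ :=
  LinearMap.toContinuousLinearMap (Matrix.toLin (Module.Basis.finTwoProd ℝ) (Module.Basis.finTwoProd ℝ)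
    !![2 * p.1 * p.2 ^ 2 / (p.1 ^ 2 + p.2 ^ 2) ^ 2, -(2 * p.1 ^ 2 * p.2 / (p.1 ^ 2 + p.2 ^ 2) ^ 2);
      (p.1 ^ 2 + p.2 ^ 2) * (3 * p.1 ^ 2 - p.2 ^ 2) / (2 * p.1 ^ 2 * p.2),
      (p.1 ^ 2 + p.2 ^ 2) * (3 * p.2 ^ 2 - p.1 ^ 2) / (2 * p.1 * p.2 ^ 2)])

theorem sq_pos2 {x l : ℝ} (hx : x ≠ 0) : 0 < x ^ 2 + l ^ 2 := by positivity

theorem fT_deriv (p : ℝ × ℝ) (h1 : p.1 ≠ 0) (h2 : p.2 ≠ 0) : HasFDerivAt fT (fD p) p := by
  have hs : p.1 ^ 2 + p.2 ^ 2 ≠ 0 := (sq_pos2 h1).ne'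
  have hq : 2 * p.1 * p.2 ≠ 0 := by positivity
  have e1 : HasFDerivAt (fun q : ℝ × ℝ => q.1) (ContinuousLinearMap.fst ℝ ℝ ℝ) p := hasFDerivAt_fst
  have e2 : HasFDerivAt (fun q : ℝ × ℝ => q.2) (ContinuousLinearMap.snd ℝ ℝ ℝ) p := hasFDerivAt_snd
  have a1 := (e1.pow 2)
  have a2 := (e2.pow 2)
  have s := a1.add a2
  unfold fD
  rw [Matrix.toLin_finTwoProd_toContinuousLinearMap]
  have g1 := a1.mul (hasDerivAt_inv hs |>.comp_hasFDerivAt p s)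
  have g2 := (s.pow 2).mul ((hasDerivAt_inv hq).comp_hasFDerivAt p ((e1.const_mul 2).mul e2))
  have := HasFDerivAt.prodMk g1 g2
  unfold fT
  convert this using 2
  all_goals
    ext <;> simp <;> field_simp <;> ring
  
theorem fD_det (p : ℝ × ℝ) (h1 : p.1 ≠ 0) (h2 : p.2 ≠ 0) : (fD p).det = 2 := by
  have hs : p.1 ^ 2 + p.2 ^ 2 ≠ 0 := (sq_pos2 h1).ne'
  unfold fD
  simp only [LinearMap.det_toContinuousLinearMap, LinearMap.det_toLin, Matrix.det_fin_two_of]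
  field_simp
  ring

theorem fT_meas : Measurable fT := by unfold fT; fun_prop

/-- The quadrants. -/
def fQ (σ τ : ℝ) : Set (ℝ × ℝ) := {p | 0 < σ * p.1 ∧ 0 < τ * p.2}

/-- The half strips. -/
def fR (σ : ℝ) : Set (ℝ × ℝ) := {q | 0 < q.1 ∧ q.1 < 1 ∧ 0 < σ * q.2}

theorem fQ_meas (σ τ : ℝ) : MeasurableSet (fQ σ τ) := by
  have h : fQ σ τ = ({p : ℝ × ℝ | 0 < σ * p.1} ∩ {p : ℝ × ℝ | 0 < τ * p.2}) := by
    ext q; simp [fQ]
  rw [h]
  exact (measurableSet_lt measurable_const (by fun_prop)).inter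
    (measurableSet_lt measurable_const (by fun_prop))

theorem fR_meas (σ : ℝ) : MeasurableSet (fR σ) := by
  have h : fR σ = ({q | 0 < q.1} ∩ ({q | q.1 < 1} ∩ {q : ℝ × ℝ | 0 < σ * q.2})) := by
    ext q; simp [fR]
  rw [h]
  exact (measurableSet_lt measurable_const (by fun_prop)).inter
    ((measurableSet_lt (by fun_prop) measurable_const).inter
    (measurableSet_lt measurable_const (by fun_prop)))

theorem fT_half {D R E : Set (ℝ × ℝ)} (hD : MeasurableSet D)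
    (h0 : ∀ p ∈ D, p.1 ≠ 0 ∧ p.2 ≠ 0) (hi : InjOn fT D) (hR : fT '' D = R)
    (hE : MeasurableSet E) : 2 * volume (D ∩ fT ⁻¹' E) = volume (R ∩ E) := by
  have hs : MeasurableSet (D ∩ fT ⁻¹' E) := hD.inter (fT_meas hE)
  have h := lintegral_abs_det_fderiv_eq_addHaar_image (volume : Measure (ℝ × ℝ)) hs
    (f := fT) (f' := fD)
    (fun p hp => (fT_deriv p (h0 p hp.1).1 (h0 p hp.1).2).hasFDerivWithinAt)
    (hi.mono inter_subset_left)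
  rw [image_inter_preimage, hR] at h
  rw [← h]
  rw [setLIntegral_congr_fun (g := fun _ => (2 : ENNReal)) hs]
  · simp
  · intro p hp
    simp only
    rw [fD_det p (h0 p hp.1).1 (h0 p hp.1).2]
    simp

theorem fT_inj {σ τ : ℝ} (hσ : σ ^ 2 = 1) (hτ : τ ^ 2 = 1) : InjOn fT (fQ σ τ) := by
  rintro ⟨x, y⟩ ⟨hx, hy⟩ ⟨z, w⟩ ⟨hz, hw⟩ h
  simp only [fT, Prod.mk.injEq] at h hx hy hz hw ⊢
  obtain ⟨h1, h2⟩ := h
  have x0 : x ≠ 0 := by rintro rfl; simp at hx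
  have y0 : y ≠ 0 := by rintro rfl; simp at hy
  have z0 : z ≠ 0 := by rintro rfl; simp at hz
  have w0 : w ≠ 0 := by rintro rfl; simp at hw
  have s1 : x ^ 2 + y ^ 2 ≠ 0 := (sq_pos2 x0).ne'
  have s2 : z ^ 2 + w ^ 2 ≠ 0 := (sq_pos2 z0).ne'
  have e1 : x ^ 2 * w ^ 2 = z ^ 2 * y ^ 2 := by
    rw [div_eq_div_iff s1 s2] at h1; linarith
  have e2 : (σ * x * (τ * w)) ^ 2 = (σ * z * (τ * y)) ^ 2 := by
    rw [mul_pow, mul_pow, mul_pow, mul_pow, mul_pow, mul_pow, hσ, hτ]; linarith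
  have e3 : σ * x * (τ * w) = σ * z * (τ * y) := by
    have p1 : 0 < σ * x * (τ * w) := mul_pos hx hw
    have p2 : 0 < σ * z * (τ * y) := mul_pos hz hy
    exact (pow_left_inj₀ p1.le p2.le two_ne_zero).1 e2
  have e4 : x * w = z * y := by
    have : (σ ^ 2 * τ ^ 2) * (x * w) * (σ * τ) = (σ ^ 2 * τ ^ 2) * (z * y) * (σ * τ) := by
      rw [hσ, hτ]; linarith
    rw [hσ, hτ, one_mul, one_mul, one_mul] at this
    have st : σ * τ ≠ 0 := by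
      intro h; have : (σ * τ) ^ 2 = 0 := by rw [h]; ring
      rw [mul_pow, hσ, hτ] at this; norm_num at this
    exact mul_right_cancel₀ st this
  have e5 : (x ^ 2 + y ^ 2) ^ 2 * (z * w) = (z ^ 2 + w ^ 2) ^ 2 * (x * y) := by
    rw [div_eq_div_iff (by positivity) (by positivity)] at h2; linarith
  have e6 : z ^ 2 * (x ^ 2 + y ^ 2) = x ^ 2 * (z ^ 2 + w ^ 2) := by
    have : z ^ 2 * y ^ 2 = x ^ 2 * w ^ 2 := by linarith
    linarith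
  have e7 : x ^ 4 * (z * w) = z ^ 4 * (x * y) := by
    have : (z ^ 2 + w ^ 2) ^ 2 * (x ^ 4 * (z * w)) = (z ^ 2 + w ^ 2) ^ 2 * (z ^ 4 * (x * y)) := by
      calc (z ^ 2 + w ^ 2) ^ 2 * (x ^ 4 * (z * w)) = (x ^ 2 * (z ^ 2 + w ^ 2)) ^ 2 * (z * w) := by
            ring
        _ = (z ^ 2 * (x ^ 2 + y ^ 2)) ^ 2 * (z * w) := by rw [e6]
        _ = z ^ 4 * ((x ^ 2 + y ^ 2) ^ 2 * (z * w)) := by ring
        _ = z ^ 4 * ((z ^ 2 + w ^ 2) ^ 2 * (x * y)) := by rw [e5]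
        _ = _ := by ring
    exact mul_left_cancel₀ (pow_ne_zero 2 s2) this
  have e8 : x ^ 2 = z ^ 2 := by
    have : (x * z * y) * (z * x ^ 2) = (x * z * y) * (z * z ^ 2) := by
      calc (x * z * y) * (z * x ^ 2) = x ^ 3 * z * (z * y) := by ring
        _ = x ^ 3 * z * (x * w) := by rw [e4]
        _ = x ^ 4 * (z * w) := by ring
        _ = z ^ 4 * (x * y) := e7
        _ = _ := by ring
    have h3 := mul_left_cancel₀ (mul_ne_zero (mul_ne_zero x0 z0) y0) this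
    exact mul_left_cancel₀ z0 h3
  have e9 : x = z := by
    have : (σ * x) ^ 2 = (σ * z) ^ 2 := by rw [mul_pow, mul_pow, e8]
    have h3 := (pow_left_inj₀ hx.le hz.le two_ne_zero).1 this
    have s0 : σ ≠ 0 := by rintro rfl; norm_num at hσ
    exact mul_left_cancel₀ s0 h3
  refine ⟨e9, ?_⟩
  rw [e9] at e4
  exact (mul_left_cancel₀ z0 e4).symm

theorem fT_image {σ τ : ℝ} (hσ : σ ^ 2 = 1) (hτ : τ ^ 2 = 1) :
    fT '' (fQ σ τ) = fR (σ * τ) := by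
  apply Subset.antisymm
  · rintro _ ⟨⟨x, y⟩, ⟨hx, hy⟩, rfl⟩
    simp only at hx hy
    have x0 : x ≠ 0 := by rintro rfl; simp at hx
    have y0 : y ≠ 0 := by rintro rfl; simp at hy
    have hs : 0 < x ^ 2 + y ^ 2 := sq_pos2 x0
    simp only [fT, fR, mem_ofPred_eq]
    refine ⟨by positivity, ?_, ?_⟩
    · rw [div_lt_one hs]; have := sq_pos_of_ne_zero y0 ; linarith
    · have : σ * τ * ((x ^ 2 + y ^ 2) ^ 2 / (2 * x * y)) =
          (x ^ 2 + y ^ 2) ^ 2 * (σ ^ 2 * τ ^ 2) / (2 * (σ * x) * (τ * y)) := by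
        have s0 : σ ≠ 0 := by rintro rfl; norm_num at hσ
        have t0 : τ ≠ 0 := by rintro rfl; norm_num at hτ
        field_simp
      rw [this, hσ, hτ]
      positivity
  · rintro ⟨η, lam⟩ ⟨h1, h2, h3⟩
    simp only at h1 h2 h3
    have s0 : σ ≠ 0 := by rintro rfl; norm_num at hσ
    have t0 : τ ≠ 0 := by rintro rfl; norm_num at hτ
    set u := Real.sqrt ((1 - η) / η) with hu
    have hpos : 0 < (1 - η) / η := div_pos (by linarith) h1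
    have u0 : 0 < u := Real.sqrt_pos.2 hpos
    have u2 : u ^ 2 = (1 - η) / η := Real.sq_sqrt hpos.le
    have u3 : 1 + u ^ 2 = 1 / η := by rw [u2]; field_simp; ring
    set m := σ * τ * lam with hm
    set r := Real.sqrt (2 * u * m) with hr
    have r0 : 0 < r := Real.sqrt_pos.2 (by positivity)
    have r2 : r ^ 2 = 2 * u * m := Real.sq_sqrt (by positivity)
    have hlam : lam = σ * τ * m := by
      rw [hm]; have : σ * τ * (σ * τ * lam) = σ ^ 2 * τ ^ 2 * lam := by ring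
      rw [this, hσ, hτ]; ring
    refine ⟨(σ * (η * r), τ * (u * (η * r))), ⟨?_, ?_⟩, ?_⟩
    · simp only
      have : σ * (σ * (η * r)) = σ ^ 2 * (η * r) := by ring
      rw [this, hσ]; positivity
    · simp only
      have : τ * (τ * (u * (η * r))) = τ ^ 2 * (u * (η * r)) := by ring
      rw [this, hτ]; positivity
    · simp only [fT, Prod.mk.injEq]
      have e1 : (σ * (η * r)) ^ 2 = η ^ 2 * r ^ 2 := by
        rw [mul_pow, hσ]; ring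
      have e2 : (σ * (η * r)) ^ 2 + (τ * (u * (η * r))) ^ 2 = η * r ^ 2 := by
        have : (σ * (η * r)) ^ 2 + (τ * (u * (η * r))) ^ 2 =
          η ^ 2 * r ^ 2 * (σ ^ 2 + τ ^ 2 * u ^ 2) := by ring
        rw [this, hσ, hτ, one_mul, u3]; field_simp
      refine ⟨?_, ?_⟩
      · rw [e2, e1]; field_simp
      · rw [e2, hlam]
        have e3 : (η * r ^ 2) ^ 2 = η ^ 2 * r ^ 2 * (2 * u * m) := by rw [r2]; ring
        rw [e3, div_eq_iff (by positivity)]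
        have : σ * τ * m * (2 * (σ * (η * r)) * (τ * (u * (η * r)))) =
          (σ ^ 2 * τ ^ 2) * (η ^ 2 * r ^ 2 * (2 * u * m)) := by ring
        rw [this, hσ, hτ]; ring

/-- **The fold preserves the area.** -/
theorem fT_vol {E : Set (ℝ × ℝ)} (hE : MeasurableSet E) :
    volume {p : ℝ × ℝ | p.1 ≠ 0 ∧ p.2 ≠ 0 ∧ fT p ∈ E} =
      volume {q : ℝ × ℝ | 0 < q.1 ∧ q.1 < 1 ∧ q ∈ E} := by
  have hq : ∀ σ τ : ℝ, σ ^ 2 = 1 → τ ^ 2 = 1 →
      2 * volume (fQ σ τ ∩ fT ⁻¹' E) = volume (fR (σ * τ) ∩ E) := fun σ τ h1 h2 =>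
    fT_half (fQ_meas σ τ) (fun p hp => ⟨by rintro h; simp [fQ, h] at hp,
      by rintro h; simp [fQ, h] at hp⟩) (fT_inj h1 h2) (fT_image h1 h2) hE
  have a1 := hq 1 1 (by norm_num) (by norm_num)
  have a2 := hq (-1) (-1) (by norm_num) (by norm_num)
  have a3 := hq 1 (-1) (by norm_num) (by norm_num)
  have a4 := hq (-1) 1 (by norm_num) (by norm_num)
  norm_num at a1 a2 a3 a4
  have m : ∀ σ τ : ℝ, MeasurableSet (fQ σ τ ∩ fT ⁻¹' E) := fun σ τ =>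
    (fQ_meas σ τ).inter (fT_meas hE)
  have hL : {p : ℝ × ℝ | p.1 ≠ 0 ∧ p.2 ≠ 0 ∧ fT p ∈ E} =
      ((fQ 1 1 ∩ fT ⁻¹' E) ∪ (fQ (-1) (-1) ∩ fT ⁻¹' E)) ∪
        ((fQ 1 (-1) ∩ fT ⁻¹' E) ∪ (fQ (-1) 1 ∩ fT ⁻¹' E)) := by
    ext p
    simp only [mem_ofPred_eq, mem_union, mem_inter_iff, mem_preimage, fQ]
    constructor
    · rintro ⟨h1, h2, h3⟩
      rcases lt_or_gt_of_ne h1 with h | h <;> rcases lt_or_gt_of_ne h2 with h' | h'
      · exact Or.inl (Or.inr ⟨⟨by linarith, by linarith⟩, h3⟩)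
      · exact Or.inr (Or.inr ⟨⟨by linarith, by linarith⟩, h3⟩)
      · exact Or.inr (Or.inl ⟨⟨by linarith, by linarith⟩, h3⟩)
      · exact Or.inl (Or.inl ⟨⟨by linarith, by linarith⟩, h3⟩)
    · rintro ((⟨⟨h1, h2⟩, h3⟩ | ⟨⟨h1, h2⟩, h3⟩) | (⟨⟨h1, h2⟩, h3⟩ | ⟨⟨h1, h2⟩, h3⟩)) <;>
        refine ⟨?_, ?_, h3⟩ <;> intro h <;> linarith
  have d1 : Disjoint (fQ 1 1 ∩ fT ⁻¹' E) (fQ (-1) (-1) ∩ fT ⁻¹' E) := by
    rw [Set.disjoint_left]
    rintro p ⟨⟨h1, h2⟩, -⟩ ⟨⟨h3, h4⟩, -⟩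
    linarith
  have d2 : Disjoint (fQ 1 (-1) ∩ fT ⁻¹' E) (fQ (-1) 1 ∩ fT ⁻¹' E) := by
    rw [Set.disjoint_left]
    rintro p ⟨⟨h1, h2⟩, -⟩ ⟨⟨h3, h4⟩, -⟩
    linarith
  have d3 : Disjoint ((fQ 1 1 ∩ fT ⁻¹' E) ∪ (fQ (-1) (-1) ∩ fT ⁻¹' E))
        ((fQ 1 (-1) ∩ fT ⁻¹' E) ∪ (fQ (-1) 1 ∩ fT ⁻¹' E)) := by
    rw [Set.disjoint_left]
    rintro p (⟨⟨h1, h2⟩, -⟩ | ⟨⟨h1, h2⟩, -⟩) (⟨⟨h3, h4⟩, -⟩ | ⟨⟨h3, h4⟩, -⟩) <;> linarith
  have hRr : volume {q : ℝ × ℝ | 0 < q.1 ∧ q.1 < 1 ∧ q ∈ E} =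
      volume (fR 1 ∩ E) + volume (fR (-1) ∩ E) := by
    rw [← measure_union (by
      rw [Set.disjoint_left]
      rintro p ⟨⟨h1, h2, h3⟩, -⟩ ⟨⟨h4, h5, h6⟩, -⟩
      linarith) ((fR_meas _).inter hE)]
    have hz : volume {q : ℝ × ℝ | q.2 = 0} = 0 := by
      have : {q : ℝ × ℝ | q.2 = 0} = univ ×ˢ {(0 : ℝ)} := by ext q; simp
      rw [this, Measure.volume_eq_prod, Measure.prod_prod]
      simp
    apply le_antisymm
    · calc volume {q : ℝ × ℝ | 0 < q.1 ∧ q.1 < 1 ∧ q ∈ E}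
          ≤ volume ((fR 1 ∩ E ∪ fR (-1) ∩ E) ∪ {q : ℝ × ℝ | q.2 = 0}) := by
            apply measure_mono
            rintro q ⟨h1, h2, h3⟩
            rcases lt_trichotomy q.2 0 with h | h | h
            · exact Or.inl (Or.inr ⟨⟨h1, h2, by linarith⟩, h3⟩)
            · exact Or.inr h
            · exact Or.inl (Or.inl ⟨⟨h1, h2, by linarith⟩, h3⟩)
        _ ≤ _ := by
            refine (measure_union_le _ _).trans ?_
            rw [hz, add_zero]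
    · apply measure_mono
      rintro q (⟨⟨h1, h2, h3⟩, h⟩ | ⟨⟨h1, h2, h3⟩, h⟩) <;> exact ⟨h1, h2, h⟩
  rw [hL, measure_union d3 ((m _ _).union (m _ _)), measure_union d1 (m _ _),
    measure_union d2 (m _ _), hRr, ← a1]
  have b2 : volume (fQ (-1) (-1) ∩ fT ⁻¹' E) = volume (fQ 1 1 ∩ fT ⁻¹' E) := by
    rw [← a1] at a2
    exact (ENNReal.mul_right_inj (by norm_num) (by norm_num)).1 a2
  have b4 : volume (fQ (-1) 1 ∩ fT ⁻¹' E) = volume (fQ 1 (-1) ∩ fT ⁻¹' E) := by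
    rw [← a3] at a4
    exact (ENNReal.mul_right_inj (by norm_num) (by norm_num)).1 a4
  rw [b2, b4, ← a3, two_mul, two_mul]

end Pool.Agent.W_2cf66e_h57
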