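import Pool.Agent.W_2cf66e_h57.Conc57

/-!
# MP_2cf66e_nt (periods), minima of quadratic polynomials: the fold (helper57)
-/

set_option autoImplicit false

noncomputable section

open MeasureTheory MvPolynomial
open scoped Pointwise Classical

namespace Pool.Agent.MinQ57

variable {ι : Type} [Fintype ι]

/-- The affine map onto the small cube with corner `ε / N`. -/
def aff (N : ℕ) (ε : ι → Fin N) (y : ι → ℝ) : ι → ℝ := fun i => (y i + ((ε i : ℕ) : ℝ)) / N

/-- The small cube with corner `ε / N`. -/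
def cell (N : ℕ) (ε : ι → Fin N) : Set (ι → ℝ) :=
  Set.univ.pi fun i => Set.Ico (((ε i : ℕ) : ℝ) / N) ((((ε i : ℕ) : ℝ) + 1) / N)

/-- The half open unit cube. -/
def cubeO (ι : Type) : Set (ι → ℝ) := Set.univ.pi fun _ => Set.Ico (0 : ℝ) 1

theorem cubeO_ae : cubeO ι =ᵐ[(volume : Measure (ι → ℝ))] Set.Icc (0 : ι → ℝ) 1 :=
  Measure.univ_pi_Ico_ae_eq_Icc (f := (0 : ι → ℝ)) (g := 1)

theorem cell_meas (N : ℕ) (ε : ι → Fin N) : MeasurableSet (cell N ε) :=
  MeasurableSet.univ_pi fun _ => measurableSet_Ico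

omit [Fintype ι] in
theorem cell_sub {N : ℕ} (hN : 0 < N) (ε : ι → Fin N) : cell N ε ⊆ cubeO ι := by
  intro y hy i _
  have hN' : (0 : ℝ) < N := by exact_mod_cast hN
  have h := hy i (Set.mem_univ i)
  have h1 : ((ε i : ℕ) : ℝ) + 1 ≤ N := by exact_mod_cast (ε i).isLt
  refine ⟨le_trans (by positivity) h.1, h.2.trans_le ?_⟩
  rw [div_le_one hN']
  exact h1

omit [Fintype ι] in
theorem cell_union {N : ℕ} (hN : 0 < N) : (⋃ ε : ι → Fin N, cell N ε) = cubeO ι := by
  refine Set.Subset.antisymm (Set.iUnion_subset fun ε => cell_sub hN ε) ?_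
  intro y hy
  have hN' : (0 : ℝ) < N := by exact_mod_cast hN
  have hlt : ∀ i, ⌊(N : ℝ) * y i⌋₊ < N := fun i => by
    have h := hy i (Set.mem_univ i)
    rw [Nat.floor_lt (mul_nonneg hN'.le h.1)]
    calc (N : ℝ) * y i < N * 1 := mul_lt_mul_of_pos_left h.2 hN'
      _ = N := mul_one _
  refine Set.mem_iUnion.2 ⟨fun i => ⟨_, hlt i⟩, fun i _ => ?_⟩
  have h := hy i (Set.mem_univ i)
  constructor
  · rw [div_le_iff₀ hN', mul_comm]
    exact Nat.floor_le (mul_nonneg hN'.le h.1)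
  · rw [lt_div_iff₀ hN', mul_comm]
    exact Nat.lt_floor_add_one _

omit [Fintype ι] in
theorem cell_disj {N : ℕ} (hN : 0 < N) :
    Pairwise (Function.onFun Disjoint fun ε : ι → Fin N => cell N ε) := by
  intro ε δ hne
  rw [Function.onFun, Set.disjoint_left]
  intro y h1 h2
  apply hne
  funext i
  have hN' : (0 : ℝ) < N := by exact_mod_cast hN
  have a1 := h1 i (Set.mem_univ i)
  have a2 := h2 i (Set.mem_univ i)
  rw [Set.mem_Ico, div_le_iff₀ hN', lt_div_iff₀ hN'] at a1 a2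
  apply Fin.ext
  have b1 : ((ε i : ℕ) : ℝ) < ((δ i : ℕ) : ℝ) + 1 := a1.1.trans_lt a2.2
  have b2 : ((δ i : ℕ) : ℝ) < ((ε i : ℕ) : ℝ) + 1 := a2.1.trans_lt a1.2
  have c1 : (ε i : ℕ) < (δ i : ℕ) + 1 := by exact_mod_cast b1
  have c2 : (δ i : ℕ) < (ε i : ℕ) + 1 := by exact_mod_cast b2
  omega

theorem int_cell {N : ℕ} (hN : 0 < N) (ε : ι → Fin N) (h : (ι → ℝ) → ℝ) :
    ∫ y in Set.Icc (0 : ι → ℝ) 1, h (aff N ε y) =
      (N : ℝ) ^ Fintype.card ι * ∫ y in cell N ε, h y := by
  have hN' : (0 : ℝ) < N := by exact_mod_cast hN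
  rw [← setIntegral_congr_set (cubeO_ae (ι := ι))]
  set c : ι → ℝ := fun i => ((ε i : ℕ) : ℝ) / N with hc
  have h1 : ∀ y : ι → ℝ, h (aff N ε y) = (fun x => h (x + c)) ((N : ℝ)⁻¹ • y) := by
    intro y
    show h _ = h _
    congr 1
    funext i
    simp only [aff, hc, Pi.add_apply, Pi.smul_apply, smul_eq_mul]
    field_simp
  simp_rw [h1]
  rw [Measure.setIntegral_comp_smul volume (fun x => h (x + c)) (cubeO ι)
    (inv_ne_zero hN'.ne'), Module.finrank_fintype_fun_eq_card]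
  have h2 : (N : ℝ)⁻¹ • cubeO ι = (fun x => x + c) ⁻¹' cell N ε := by
    ext x
    rw [Set.mem_smul_set_iff_inv_smul_mem₀ (inv_ne_zero hN'.ne'), inv_inv]
    unfold cubeO cell
    simp only [Set.mem_pi, Set.mem_univ, true_imp_iff, Set.mem_Ico, Set.mem_preimage,
      Pi.smul_apply, smul_eq_mul, Pi.add_apply, hc]
    refine forall_congr' fun i => ?_
    rw [add_div]
    constructor
    · rintro ⟨a, b⟩
      constructor
      · have : 0 ≤ x i := by
          by_contra hx
          push Not at hx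
          nlinarith
        linarith
      · have : x i < 1 / N := by
          rw [lt_div_iff₀ hN', mul_comm]
          exact b
        linarith
    · rintro ⟨a, b⟩
      have a' : 0 ≤ x i := by linarith
      have b' : x i < 1 / N := by linarith
      rw [lt_div_iff₀ hN', mul_comm] at b'
      exact ⟨mul_nonneg hN'.le a', b'⟩
  rw [h2, MeasurePreserving.setIntegral_preimage_emb (measurePreserving_add_right volume c)
    (measurableEmbedding_addRight c) h (cell N ε), smul_eq_mul]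
  congr 1
  rw [inv_pow, inv_inv, abs_of_pos (pow_pos hN' _)]

/-- The fold of `h`. -/
def foldF (N : ℕ) (h : (ι → ℝ) → ℝ) (y : ι → ℝ) : ℝ :=
  ((N : ℝ) ^ Fintype.card ι)⁻¹ * ∑ ε : ι → Fin N, h (aff N ε y)

theorem aff_cont (N : ℕ) (ε : ι → Fin N) : Continuous (aff N ε) := by
  unfold aff
  fun_prop

theorem int_foldF {N : ℕ} (hN : 0 < N) (h : (ι → ℝ) → ℝ) (hh : Continuous h) :
    ∫ y in Set.Icc (0 : ι → ℝ) 1, foldF N h y = ∫ y in Set.Icc (0 : ι → ℝ) 1, h y := by
  have hN' : (0 : ℝ) < N := by exact_mod_cast hN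
  unfold foldF
  rw [integral_const_mul, integral_finsetSum]
  · simp_rw [int_cell hN]
    rw [← Finset.mul_sum, ← mul_assoc, inv_mul_cancel₀ (pow_pos hN' _).ne', one_mul,
      ← setIntegral_congr_set (cubeO_ae (ι := ι)), ← cell_union hN]
    refine (integral_iUnion_fintype (fun ε => cell_meas N ε) (cell_disj hN) fun ε => ?_).symm
    have h1 : IntegrableOn h (Set.Icc (0 : ι → ℝ) 1) :=
      hh.continuousOn.integrableOn_compact isCompact_Icc
    refine h1.mono_set fun y hy => ?_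
    have h2 := cell_sub hN ε hy
    exact ⟨fun i => (h2 i (Set.mem_univ i)).1, fun i => (h2 i (Set.mem_univ i)).2.le⟩
  · intro ε _
    exact (hh.comp (aff_cont N ε)).continuousOn.integrableOn_compact isCompact_Icc

/-- A sum of minima is the minimum over the choice functions. -/
theorem sum_iInf {E α : Type} [Fintype E] [Fintype α] [Nonempty α] (f : E → α → ℝ) :
    ∑ e, ⨅ a, f e a = ⨅ φ : E → α, ∑ e, f e (φ e) := by
  apply le_antisymm
  · refine le_ciInf fun φ => Finset.sum_le_sum fun e _ => ?_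
    exact ciInf_le (Set.finite_range _).bddBelow (φ e)
  · choose φ hφ using fun e => exists_eq_ciInf_of_finite (f := f e)
    refine (ciInf_le (Set.finite_range _).bddBelow φ).trans ?_
    exact le_of_eq (Finset.sum_congr rfl fun e _ => hφ e)

theorem mul_iInf' {α : Type} [Fintype α] [Nonempty α] (c : ℝ) (hc : 0 ≤ c) (f : α → ℝ) :
    c * ⨅ a, f a = ⨅ a, c * f a := by
  apply le_antisymm
  · refine le_ciInf fun a => mul_le_mul_of_nonneg_left ?_ hc
    exact ciInf_le (Set.finite_range _).bddBelow a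
  · obtain ⟨a, ha⟩ := exists_eq_ciInf_of_finite (f := f)
    rw [← ha]
    exact ciInf_le (Set.finite_range _).bddBelow a

/-- The polynomials of the fold. -/
def rr {α : Type} (N : ℕ) (q : α → MvPolynomial ι ℚ) (φ : (ι → Fin N) → α) :
    MvPolynomial ι ℚ :=
  C ((N : ℚ) ^ Fintype.card ι)⁻¹ * ∑ ε : ι → Fin N,
    bind₁ (fun i => C (N : ℚ)⁻¹ * (X i + C ((ε i : ℕ) : ℚ))) (q (φ ε))

theorem aeval_rr {α : Type} (N : ℕ) (q : α → MvPolynomial ι ℚ) (φ : (ι → Fin N) → α)
    (y : ι → ℝ) : (aeval y (rr N q φ) : ℝ) =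
      ((N : ℝ) ^ Fintype.card ι)⁻¹ * ∑ ε : ι → Fin N, (aeval (aff N ε y) (q (φ ε)) : ℝ) := by
  unfold rr
  rw [map_mul, map_sum]
  congr 1
  · simp
  · refine Finset.sum_congr rfl fun ε _ => ?_
    rw [aeval_bind₁]
    congr 2
    funext i
    simp only [aff, map_mul, map_add, aeval_X, algHom_C, eq_ratCast]
    push_cast
    rw [div_eq_inv_mul]

theorem iInf_rr {α : Type} [Fintype α] [Nonempty α] (N : ℕ) (q : α → MvPolynomial ι ℚ)
    (y : ι → ℝ) : (⨅ φ : (ι → Fin N) → α, (aeval y (rr N q φ) : ℝ)) =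
      foldF N (fun z => ⨅ a, (aeval z (q a) : ℝ)) y := by
  unfold foldF
  rw [sum_iInf, mul_iInf' _ (by positivity)]
  refine iInf_congr fun φ => ?_
  rw [aeval_rr]

/-- Degrees after an affine substitution. -/
theorem deg_bind {σ τ : Type} (g : σ → MvPolynomial τ ℚ) (hg : ∀ i, (g i).totalDegree ≤ 1)
    (p : MvPolynomial σ ℚ) : (bind₁ g p).totalDegree ≤ p.totalDegree := by
  conv_lhs => rw [p.as_sum, map_sum]
  refine (totalDegree_finsetSum _ _).trans (Finset.sup_le fun m hm => ?_)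
  rw [bind₁_monomial]
  refine (totalDegree_mul _ _).trans ?_
  rw [totalDegree_C, zero_add]
  refine (totalDegree_finsetProd _ _).trans ?_
  refine le_trans ?_ (le_totalDegree hm)
  refine Finset.sum_le_sum fun i _ => ?_
  refine (totalDegree_pow _ _).trans ?_
  calc m i * (g i).totalDegree ≤ m i * 1 := Nat.mul_le_mul_left _ (hg i)
    _ = m i := mul_one _

theorem deg_rr {α : Type} (N : ℕ) (q : α → MvPolynomial ι ℚ) (φ : (ι → Fin N) → α) (k : ℕ)
    (hq : ∀ a, (q a).totalDegree ≤ k) : (rr N q φ).totalDegree ≤ k := by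
  unfold rr
  refine (totalDegree_mul _ _).trans ?_
  rw [totalDegree_C, zero_add]
  refine (totalDegree_finsetSum _ _).trans (Finset.sup_le fun ε _ => ?_)
  refine (deg_bind _ (fun i => ?_) _).trans (hq _)
  refine (totalDegree_mul _ _).trans ?_
  rw [totalDegree_C, zero_add]
  refine (totalDegree_add _ _).trans ?_
  rw [totalDegree_C, totalDegree_X]
  simp

theorem cc_rr {α : Type} (N : ℕ) (hN : 0 < N) (q : α → MvPolynomial ι ℚ) (φ : (ι → Fin N) → α)
    (hq : ∀ a, CC (q a)) : CC (rr N q φ) := by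
  have hN' : (0 : ℝ) < N := by exact_mod_cast hN
  refine ⟨convex_univ, fun x _ y _ a b ha hb hab => ?_⟩
  show a * (aeval x (rr N q φ) : ℝ) + b * (aeval y (rr N q φ) : ℝ) ≤
    (aeval (a • x + b • y) (rr N q φ) : ℝ)
  rw [aeval_rr, aeval_rr, aeval_rr]
  have h1 : ∀ s : ℝ, ∀ κ S : ℝ, s * (κ * S) = κ * (s * S) := fun s κ S => by ring
  rw [h1 a, h1 b, ← mul_add, Finset.mul_sum, Finset.mul_sum, ← Finset.sum_add_distrib]
  refine mul_le_mul_of_nonneg_left (Finset.sum_le_sum fun ε _ => ?_) (by positivity)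
  have h2 : aff N ε (a • x + b • y) = a • aff N ε x + b • aff N ε y := by
    funext i
    simp only [aff, Pi.add_apply, Pi.smul_apply, smul_eq_mul]
    have hb1 : b = 1 - a := by linarith
    rw [hb1]
    field_simp
    ring
  rw [h2]
  exact (hq (φ ε)).2 (Set.mem_univ _) (Set.mem_univ _) ha hb hab

end Pool.Agent.MinQ57
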