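import Pool.Agent.W_2cf66e_h57.Unit57
import Pool.Agent.W_2cf66e_h88.Defs

/-!
# MP_2cf66e_nt (periods), minima of quadratic polynomials: the class `Kq` on the unit cube
(helper57)
-/

set_option autoImplicit false

noncomputable section

open MeasureTheory MvPolynomial

namespace Pool.Agent.MinQ

/-- Every number of the class `Kq` is the integral over a cube `[0,1]^n` of a minimum of finitely
many rational polynomials of degree at most two. -/
theorem kq_unit57 {x : ℝ} (h : Kq x) :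
    ∃ (n m : ℕ) (q : Fin (m + 1) → MvPolynomial (Fin n) ℚ), (∀ j, (q j).totalDegree ≤ 2) ∧
      x = ∫ z in Set.Icc (0 : Fin n → ℝ) 1, ⨅ j, (aeval z (q j) : ℝ) := by
  obtain ⟨ι, _, α, _, _, r, c, hr, rfl⟩ := h
  exact Pool.Agent.MinQ57.unit57 r c hr

/-- Positive numbers of the class `Kq`: concave positive families. -/
theorem kq_body57 {x : ℝ} (h : Kq x) (hx : 0 < x) :
    ∃ (n : ℕ) (β : Type) (_ : Fintype β) (_ : Nonempty β) (r : β → MvPolynomial (Fin n) ℚ),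
      (∀ b, (r b).totalDegree ≤ 2) ∧
      (∀ b, ConcaveOn ℝ Set.univ fun z : Fin n → ℝ => (aeval z (r b) : ℝ)) ∧
      (∀ z ∈ Set.Icc (0 : Fin n → ℝ) 1, ∀ b, (0 : ℝ) < aeval z (r b)) ∧
      x = ∫ z in Set.Icc (0 : Fin n → ℝ) 1, ⨅ b, (aeval z (r b) : ℝ) := by
  obtain ⟨n, m, q, hq, hxq⟩ := kq_unit57 h
  rw [hxq] at hx
  obtain ⟨β, i1, i2, r, h1, h2, h3, h4⟩ := Pool.Agent.MinQ57.body57 q hq hx
  exact ⟨n, β, i1, i2, r, h1, h2, h3, hxq.trans h4.symm⟩

/-- The same with a family indexed by `Fin (m + 1)`. -/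
theorem kq_fin57 {x : ℝ} (h : Kq x) (hx : 0 < x) :
    ∃ (n m : ℕ) (r : Fin (m + 1) → MvPolynomial (Fin n) ℚ),
      (∀ b, (r b).totalDegree ≤ 2) ∧
      (∀ b, ConcaveOn ℝ Set.univ fun z : Fin n → ℝ => (aeval z (r b) : ℝ)) ∧
      (∀ z ∈ Set.Icc (0 : Fin n → ℝ) 1, ∀ b, (0 : ℝ) < aeval z (r b)) ∧
      x = ∫ z in Set.Icc (0 : Fin n → ℝ) 1, ⨅ b, (aeval z (r b) : ℝ) := by
  classical
  obtain ⟨n, β, i1, i2, r, h1, h2, h3, h4⟩ := kq_body57 h hx
  obtain ⟨m, hm⟩ : ∃ m, Fintype.card β = m + 1 := ⟨Fintype.card β - 1, by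
    have := Fintype.card_pos (α := β)
    omega⟩
  let f : Fin (m + 1) ≃ β := (Fintype.equivFinOfCardEq hm).symm
  refine ⟨n, m, fun j => r (f j), fun j => h1 _, fun j => h2 _, fun z hz j => h3 z hz _, ?_⟩
  rw [h4]
  refine setIntegral_congr_fun measurableSet_Icc fun z _ => ?_
  exact (f.surjective.iInf_comp (fun b => (aeval z (r b) : ℝ))).symm

end Pool.Agent.MinQ
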