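import Mathlib

/-!
# MP_2cf66e_nt (periods), minima of quadratic polynomials: concave quadratic inequalities as a
linear matrix inequality (helper57)
-/

set_option autoImplicit false

noncomputable section

open MvPolynomial
open scoped Classical Matrix

namespace Pool.Agent.MinQ57

/-- Positive semidefinite real matrices. -/
theorem psd_iff {τ : Type} [Fintype τ] (M : Matrix τ τ ℝ) :
    M.PosSemidef ↔ M.IsHermitian ∧ ∀ x : τ → ℝ, 0 ≤ ∑ s, ∑ t, x s * M s t * x t := by
  rw [Matrix.posSemidef_iff_dotProduct_mulVec]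
  refine and_congr_right fun _ => forall_congr' fun x => ?_
  have h : star x ⬝ᵥ M *ᵥ x = ∑ s, ∑ t, x s * M s t * x t := by
    unfold dotProduct Matrix.mulVec dotProduct
    refine Finset.sum_congr rfl fun s _ => ?_
    rw [Finset.mul_sum]
    refine Finset.sum_congr rfl fun t _ => ?_
    rw [Pi.star_apply, star_trivial]
    ring
  rw [h]

/-- The quadratic form of a matrix of polynomials at the point `z`. -/
def qf {N : ℕ} {τ : Type} [Fintype τ] (z : Fin N → ℝ) (x : τ → ℝ)
    (P : Matrix τ τ (MvPolynomial (Fin N) ℚ)) : ℝ :=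
  ∑ s, ∑ t, x s * (aeval z (P s t) : ℝ) * x t

theorem qf_add {N : ℕ} {τ : Type} [Fintype τ] (z : Fin N → ℝ) (x : τ → ℝ)
    (P Q : Matrix τ τ (MvPolynomial (Fin N) ℚ)) : qf z x (P + Q) = qf z x P + qf z x Q := by
  unfold qf
  rw [← Finset.sum_add_distrib]
  refine Finset.sum_congr rfl fun s _ => ?_
  rw [← Finset.sum_add_distrib]
  refine Finset.sum_congr rfl fun t _ => ?_
  rw [Matrix.add_apply, map_add]
  ring

theorem qf_zero {N : ℕ} {τ : Type} [Fintype τ] (z : Fin N → ℝ) (x : τ → ℝ) :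
    qf z x (0 : Matrix τ τ (MvPolynomial (Fin N) ℚ)) = 0 := by
  unfold qf
  simp

theorem qf_sum {N : ℕ} {τ : Type} [Fintype τ] (z : Fin N → ℝ) (x : τ → ℝ) {I : Type}
    (S : Finset I) (P : I → Matrix τ τ (MvPolynomial (Fin N) ℚ)) :
    qf z x (∑ i ∈ S, P i) = ∑ i ∈ S, qf z x (P i) := by
  induction S using Finset.induction_on with
  | empty => simp [qf_zero]
  | insert i S hi ih => rw [Finset.sum_insert hi, Finset.sum_insert hi, qf_add, ih]

theorem qf_single {N : ℕ} {τ : Type} [Fintype τ] [DecidableEq τ] (z : Fin N → ℝ) (x : τ → ℝ) (a b : τ)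
    (c : MvPolynomial (Fin N) ℚ) :
    qf z x (Matrix.single a b c) = x a * (aeval z c : ℝ) * x b := by
  unfold qf
  rw [Finset.sum_eq_single a]
  · rw [Finset.sum_eq_single b]
    · rw [Matrix.single_apply_same]
    · intro t _ ht
      rw [Matrix.single_apply_of_col_ne _ _ ht.symm]
      simp
    · intro h
      exact absurd (Finset.mem_univ b) h
  · intro s _ hs
    refine Finset.sum_eq_zero fun t _ => ?_
    rw [Matrix.single_apply_of_row_ne hs.symm]
    simp
  · intro h
    exact absurd (Finset.mem_univ a) h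

/-- An affine polynomial is the sum of its coefficients times the coordinates. -/
theorem aff_eval {N : ℕ} (p : MvPolynomial (Fin N) ℚ) (hp : p.totalDegree ≤ 1)
    (z : Fin N → ℝ) : (aeval z p : ℝ) =
      ((coeff 0 p : ℚ) : ℝ) + ∑ i, z i * ((coeff (Finsupp.single i 1) p : ℚ) : ℝ) := by
  have h : p = C (coeff 0 p) + ∑ i, C (coeff (Finsupp.single i 1) p) * X i := by
    ext m
    rw [coeff_add, coeff_sum]
    simp only [coeff_C_mul, coeff_C, coeff_X]
    by_cases h0 : m = 0
    · subst h0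
      rw [if_pos rfl]
      have : ∑ i : Fin N, coeff (Finsupp.single i 1) p *
          (if Finsupp.single i 1 = (0 : Fin N →₀ ℕ) then (1 : ℚ) else 0) = 0 := by
        refine Finset.sum_eq_zero fun i _ => ?_
        rw [if_neg, mul_zero]
        intro h
        have := DFunLike.congr_fun h i
        simp at this
      rw [this, add_zero]
    · rw [if_neg (fun h => h0 h.symm), zero_add]
      by_cases h1 : ∃ i, Finsupp.single i 1 = m
      · obtain ⟨i, rfl⟩ := h1
        rw [Finset.sum_eq_single i]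
        · simp
        · intro j _ hj
          rw [if_neg, mul_zero]
          intro h
          have := DFunLike.congr_fun h j
          rw [Finsupp.single_eq_same, Finsupp.single_eq_of_ne hj] at this
          exact one_ne_zero this
        · intro h
          exact absurd (Finset.mem_univ i) h
      · push Not at h1
        rw [Finset.sum_eq_zero fun i _ => by rw [if_neg (h1 i), mul_zero]]
        by_contra hne
        have hm : m ∈ p.support := mem_support_iff.2 hne
        have hd : (m.sum fun _ e => e) ≤ 1 := (le_totalDegree hm).trans hp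
        obtain ⟨i, hi⟩ : ∃ i, m i ≠ 0 := by
          by_contra h
          push Not at h
          exact h0 (Finsupp.ext h)
        have hle : Finsupp.single i 1 ≤ m := by
          rw [Finsupp.single_le_iff]
          omega
        obtain ⟨m', rfl⟩ : ∃ m', m = Finsupp.single i 1 + m' :=
          ⟨m - Finsupp.single i 1, (add_tsub_cancel_of_le hle).symm⟩
        have hs : ((Finsupp.single i 1 + m').sum fun _ e => e) =
            1 + m'.sum fun _ e => e := by
          rw [Finsupp.sum_add_index' (fun _ => rfl) (fun _ _ _ => rfl)]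
          simp
        have h2 : m' = 0 := by
          by_contra h
          obtain ⟨k, hk⟩ : ∃ k, m' k ≠ 0 := by
            by_contra h'
            push Not at h'
            exact h (Finsupp.ext h')
          have h3 : m' k ≤ m'.sum fun _ e => e :=
            Finset.single_le_sum (f := fun k => m' k) (fun _ _ => Nat.zero_le _)
              (Finsupp.mem_support_iff.2 hk)
          omega
        exact h1 i (by rw [h2, add_zero])
  conv_lhs => rw [h]
  rw [map_add, map_sum]
  simp only [map_mul, aeval_X, algHom_C, eq_ratCast]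
  congr 1
  exact Finset.sum_congr rfl fun i _ => mul_comm _ _

/-- A symmetric matrix of affine polynomials gives a rational linear matrix inequality. -/
theorem pencil_of_affine {N : ℕ} {τ : Type} [Fintype τ]
    (P : Matrix τ τ (MvPolynomial (Fin N) ℚ)) (hP : ∀ s t, (P s t).totalDegree ≤ 1)
    (hS : P.IsSymm) :
    ∃ (r : ℕ) (A : Matrix (Fin r) (Fin r) ℚ) (B : Fin N → Matrix (Fin r) (Fin r) ℚ),
      A.IsSymm ∧ (∀ i, (B i).IsSymm) ∧ ∀ z : Fin N → ℝ,
        (A.map (Rat.cast : ℚ → ℝ) + ∑ i, z i • (B i).map (Rat.cast : ℚ → ℝ)).PosSemidef ↔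
          ∀ x : τ → ℝ, 0 ≤ qf z x P := by
  let e : Fin (Fintype.card τ) ≃ τ := (Fintype.equivFin τ).symm
  let A0 : Matrix τ τ ℚ := fun s t => coeff 0 (P s t)
  let B0 : Fin N → Matrix τ τ ℚ := fun i s t => coeff (Finsupp.single i 1) (P s t)
  have hsym : ∀ s t, P s t = P t s := fun s t => (congrFun (congrFun hS s) t).symm
  refine ⟨Fintype.card τ, A0.submatrix e e, fun i => (B0 i).submatrix e e, ?_, ?_, ?_⟩
  · ext s t
    show coeff 0 (P (e t) (e s)) = coeff 0 (P (e s) (e t))
    rw [hsym]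
  · intro i
    ext s t
    show coeff (Finsupp.single i 1) (P (e t) (e s)) = coeff (Finsupp.single i 1) (P (e s) (e t))
    rw [hsym]
  · intro z
    let M : Matrix τ τ ℝ := fun s t => (aeval z (P s t) : ℝ)
    have h1 : (A0.submatrix e e).map (Rat.cast : ℚ → ℝ) +
        ∑ i, z i • ((B0 i).submatrix e e).map (Rat.cast : ℚ → ℝ) = M.submatrix e e := by
      ext s t
      rw [Matrix.add_apply, Matrix.sum_apply]
      show ((coeff 0 (P (e s) (e t)) : ℚ) : ℝ) +
        ∑ i, z i * ((coeff (Finsupp.single i 1) (P (e s) (e t)) : ℚ) : ℝ) =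
          (aeval z (P (e s) (e t)) : ℝ)
      exact (aff_eval _ (hP _ _) z).symm
    rw [h1, Matrix.posSemidef_submatrix_equiv, psd_iff]
    constructor
    · intro h
      exact h.2
    · intro h
      refine ⟨?_, h⟩
      ext s t
      show star (aeval z (P t s) : ℝ) = (aeval z (P s t) : ℝ)
      rw [star_trivial, hsym]

/-- The index type of the matrix. -/
abbrev Ix {m : ℕ} (k : Fin m → ℕ) : Type := Σ j : Fin m, Option (Fin (k j))

/-- The matrix of polynomials. -/
def PM {N m : ℕ} {k : Fin m → ℕ} (l : Fin m → MvPolynomial (Fin N) ℚ)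
    (w : ∀ j, Fin (k j) → ℚ) (g : ∀ j, Fin (k j) → MvPolynomial (Fin N) ℚ) :
    Matrix (Ix k) (Ix k) (MvPolynomial (Fin N) ℚ) :=
  ∑ j, (Matrix.single (⟨j, none⟩ : Ix k) ⟨j, none⟩ (l j) +
    ∑ i, (Matrix.single (⟨j, some i⟩ : Ix k) ⟨j, some i⟩ (C (w j i)) +
      (Matrix.single (⟨j, none⟩ : Ix k) ⟨j, some i⟩ (C (w j i) * g j i) +
        Matrix.single (⟨j, some i⟩ : Ix k) ⟨j, none⟩ (C (w j i) * g j i))))

theorem PM_symm {N m : ℕ} {k : Fin m → ℕ} (l : Fin m → MvPolynomial (Fin N) ℚ)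
    (w : ∀ j, Fin (k j) → ℚ) (g : ∀ j, Fin (k j) → MvPolynomial (Fin N) ℚ) :
    (PM l w g).IsSymm := by
  unfold PM Matrix.IsSymm
  rw [Matrix.transpose_sum]
  refine Finset.sum_congr rfl fun j _ => ?_
  rw [Matrix.transpose_add, Matrix.transpose_single, Matrix.transpose_sum]
  congr 1
  refine Finset.sum_congr rfl fun i _ => ?_
  rw [Matrix.transpose_add, Matrix.transpose_add, Matrix.transpose_single,
    Matrix.transpose_single, Matrix.transpose_single]
  congr 1
  rw [add_comm]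

theorem deg_single {N : ℕ} {τ : Type} [DecidableEq τ] (a b : τ) (c : MvPolynomial (Fin N) ℚ)
    (hc : c.totalDegree ≤ 1) (s t : τ) : ((Matrix.single a b c) s t).totalDegree ≤ 1 := by
  rw [Matrix.single_apply]
  split_ifs
  · exact hc
  · simp

theorem PM_deg {N m : ℕ} {k : Fin m → ℕ} (l : Fin m → MvPolynomial (Fin N) ℚ)
    (w : ∀ j, Fin (k j) → ℚ) (g : ∀ j, Fin (k j) → MvPolynomial (Fin N) ℚ)
    (hl : ∀ j, (l j).totalDegree ≤ 1) (hg : ∀ j i, (g j i).totalDegree ≤ 1) (s t : Ix k) :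
    ((PM l w g) s t).totalDegree ≤ 1 := by
  unfold PM
  have hcg : ∀ j i, (C (w j i) * g j i).totalDegree ≤ 1 := fun j i => by
    refine (totalDegree_mul _ _).trans ?_
    rw [totalDegree_C, zero_add]
    exact hg j i
  rw [Matrix.sum_apply]
  refine (totalDegree_finsetSum _ _).trans (Finset.sup_le fun j _ => ?_)
  rw [Matrix.add_apply]
  refine (totalDegree_add _ _).trans (max_le (deg_single _ _ _ (hl j) s t) ?_)
  rw [Matrix.sum_apply]
  refine (totalDegree_finsetSum _ _).trans (Finset.sup_le fun i _ => ?_)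
  rw [Matrix.add_apply]
  refine (totalDegree_add _ _).trans (max_le (deg_single _ _ _ (by simp) s t) ?_)
  rw [Matrix.add_apply]
  exact (totalDegree_add _ _).trans (max_le (deg_single _ _ _ (hcg j i) s t)
    (deg_single _ _ _ (hcg j i) s t))

theorem PM_qf {N m : ℕ} {k : Fin m → ℕ} (l : Fin m → MvPolynomial (Fin N) ℚ)
    (w : ∀ j, Fin (k j) → ℚ) (g : ∀ j, Fin (k j) → MvPolynomial (Fin N) ℚ)
    (q : Fin m → MvPolynomial (Fin N) ℚ) (hq : ∀ j, q j = l j - ∑ i, C (w j i) * (g j i) ^ 2)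
    (z : Fin N → ℝ) (x : Ix k → ℝ) :
    qf z x (PM l w g) = ∑ j, ((x ⟨j, none⟩) ^ 2 * (aeval z (q j) : ℝ) +
      ∑ i, ((w j i : ℚ) : ℝ) * (x ⟨j, some i⟩ + x ⟨j, none⟩ * (aeval z (g j i) : ℝ)) ^ 2) := by
  unfold PM
  rw [qf_sum]
  refine Finset.sum_congr rfl fun j _ => ?_
  rw [qf_add, qf_single, qf_sum, hq]
  have h1 : (aeval z (l j - ∑ i, C (w j i) * (g j i) ^ 2) : ℝ) =
      (aeval z (l j) : ℝ) - ∑ i, ((w j i : ℚ) : ℝ) * (aeval z (g j i) : ℝ) ^ 2 := by
    rw [map_sub, map_sum]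
    congr 1
    refine Finset.sum_congr rfl fun i _ => ?_
    simp only [map_mul, map_pow, algHom_C, eq_ratCast]
  rw [h1, mul_sub, Finset.mul_sum, sub_add_eq_add_sub, add_sub_assoc,
    ← Finset.sum_sub_distrib]
  congr 1
  · ring
  · refine Finset.sum_congr rfl fun i _ => ?_
    rw [qf_add, qf_add, qf_single, qf_single, qf_single]
    simp only [map_mul, algHom_C, eq_ratCast]
    ring

/-- Concave quadratic inequalities of the form `0 ≤ l - ∑ w g ^ 2` are a rational linear matrix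
inequality. -/
theorem lmi_of_dec {N m : ℕ} (q : Fin m → MvPolynomial (Fin N) ℚ)
    (hdec : ∀ j, ∃ (l : MvPolynomial (Fin N) ℚ) (k : ℕ) (w : Fin k → ℚ)
      (g : Fin k → MvPolynomial (Fin N) ℚ), l.totalDegree ≤ 1 ∧ (∀ i, 0 ≤ w i) ∧
        (∀ i, (g i).totalDegree ≤ 1) ∧ q j = l - ∑ i, C (w i) * (g i) ^ 2) :
    ∃ (r : ℕ) (A : Matrix (Fin r) (Fin r) ℚ) (B : Fin N → Matrix (Fin r) (Fin r) ℚ),
      A.IsSymm ∧ (∀ i, (B i).IsSymm) ∧
      {z : Fin N → ℝ | ∀ j, (0 : ℝ) ≤ aeval z (q j)} =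
        {z | (A.map (Rat.cast : ℚ → ℝ) +
          ∑ i, z i • (B i).map (Rat.cast : ℚ → ℝ)).PosSemidef} := by
  choose l k w g hl hw hg hq using hdec
  obtain ⟨r, A, B, hA, hB, h⟩ := pencil_of_affine (PM l w g) (PM_deg l w g hl hg)
    (PM_symm l w g)
  refine ⟨r, A, B, hA, hB, ?_⟩
  ext z
  show (∀ j, (0 : ℝ) ≤ aeval z (q j)) ↔ (A.map (Rat.cast : ℚ → ℝ) +
    ∑ i, z i • (B i).map (Rat.cast : ℚ → ℝ)).PosSemidef
  rw [h z]
  constructor
  · intro hz x
    rw [PM_qf l w g q hq z x]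
    refine Finset.sum_nonneg fun j _ => add_nonneg (mul_nonneg (sq_nonneg _) (hz j)) ?_
    refine Finset.sum_nonneg fun i _ => mul_nonneg ?_ (sq_nonneg _)
    exact_mod_cast hw j i
  · intro hx j₀
    let x : Ix k → ℝ := fun s => match s with
      | ⟨j, none⟩ => if j = j₀ then 1 else 0
      | ⟨j, some i⟩ => if j = j₀ then -(aeval z (g j i) : ℝ) else 0
    have h1 := hx x
    rw [PM_qf l w g q hq z x, Finset.sum_eq_single j₀] at h1
    · have e1 : x ⟨j₀, none⟩ = 1 := if_pos rfl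
      have e2 : ∀ i, x ⟨j₀, some i⟩ = -(aeval z (g j₀ i) : ℝ) := fun i => if_pos rfl
      rw [e1] at h1
      simp only [e2] at h1
      have e3 : ∑ i, ((w j₀ i : ℚ) : ℝ) *
          (-(aeval z (g j₀ i) : ℝ) + 1 * (aeval z (g j₀ i) : ℝ)) ^ 2 = 0 :=
        Finset.sum_eq_zero fun i _ => by ring
      rw [e3] at h1
      linarith
    · intro j _ hj
      have e1 : x ⟨j, none⟩ = 0 := if_neg hj
      have e2 : ∀ i, x ⟨j, some i⟩ = 0 := fun i => if_neg hj
      rw [e1]
      simp [e2]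
    · intro h
      exact absurd (Finset.mem_univ j₀) h

/-- The same from the decomposition of concave quadratic polynomials. -/
theorem lmi57_of (hdec : ∀ {N : ℕ} (q : MvPolynomial (Fin N) ℚ), q.totalDegree ≤ 2 →
      (ConcaveOn ℝ Set.univ fun z : Fin N → ℝ => (aeval z q : ℝ)) →
      ∃ (l : MvPolynomial (Fin N) ℚ) (k : ℕ) (w : Fin k → ℚ)
        (g : Fin k → MvPolynomial (Fin N) ℚ), l.totalDegree ≤ 1 ∧ (∀ i, 0 ≤ w i) ∧
          (∀ i, (g i).totalDegree ≤ 1) ∧ q = l - ∑ i, C (w i) * (g i) ^ 2)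
    {N m : ℕ} (q : Fin m → MvPolynomial (Fin N) ℚ) (hd : ∀ j, (q j).totalDegree ≤ 2)
    (hc : ∀ j, ConcaveOn ℝ Set.univ fun z : Fin N → ℝ => (aeval z (q j) : ℝ)) :
    ∃ (r : ℕ) (A : Matrix (Fin r) (Fin r) ℚ) (B : Fin N → Matrix (Fin r) (Fin r) ℚ),
      A.IsSymm ∧ (∀ i, (B i).IsSymm) ∧
      {z : Fin N → ℝ | ∀ j, (0 : ℝ) ≤ aeval z (q j)} =
        {z | (A.map (Rat.cast : ℚ → ℝ) +
          ∑ i, z i • (B i).map (Rat.cast : ℚ → ℝ)).PosSemidef} :=
  lmi_of_dec q fun j => hdec (q j) (hd j) (hc j)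

end Pool.Agent.MinQ57
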