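import Pool.Agent.W_2cf66e_h57.Even57
import Pool.Agent.W_2cf66e_h65.GBody
import Pool.Agent.W_2cf66e_h65.GNorm

/-!
# MP_2cf66e_nt (periods), minima of quadratic polynomials: the unit ball of a norm (helper57)
-/

set_option autoImplicit false

noncomputable section

open MeasureTheory MvPolynomial
open scoped Classical

namespace Pool.Agent.MinQ57

open Pool.Agent.CVol (box)

/-- The inequalities of the body. -/
def qb {n : ℕ} {α : Type} (r : α → MvPolynomial (Fin n) ℚ) :
    (Fin n × Bool) ⊕ (((Fin n → Bool) → α) × Bool) → MvPolynomial (Fin (n + 1)) ℚ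
  | Sum.inl (i, b) => C (sg b) * X (Fin.castSucc i) + C 1
  | Sum.inr (ψ, b) => rename Fin.castSucc (es r ψ) + C (2 * sg b) * X (Fin.last n)

theorem cc_rename {n : ℕ} {p : MvPolynomial (Fin n) ℚ} (hp : CC p) :
    CC (rename (Fin.castSucc (n := n)) p) := by
  refine ⟨convex_univ, fun x _ y _ a b ha hb hab => ?_⟩
  have h := hp.2 (Set.mem_univ (fun i => x (Fin.castSucc i)))
    (Set.mem_univ (fun i => y (Fin.castSucc i))) ha hb hab
  simp only [aeval_rename]
  exact h

theorem qb_deg {n : ℕ} {α : Type} (r : α → MvPolynomial (Fin n) ℚ)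
    (hd : ∀ b, (r b).totalDegree ≤ 2) (j : (Fin n × Bool) ⊕ (((Fin n → Bool) → α) × Bool)) :
    (qb r j).totalDegree ≤ 2 := by
  rcases j with ⟨i, b⟩ | ⟨ψ, b⟩
  · refine (totalDegree_add _ _).trans (max_le ?_ ?_)
    · refine (totalDegree_mul _ _).trans ?_
      rw [totalDegree_C, totalDegree_X]
      norm_num
    · rw [totalDegree_C]
      exact Nat.zero_le _
  · refine (totalDegree_add _ _).trans (max_le ?_ ?_)
    · exact (totalDegree_rename_le _ _).trans (deg_es r ψ 2 hd)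
    · refine (totalDegree_mul _ _).trans ?_
      rw [totalDegree_C, totalDegree_X]
      norm_num

theorem qb_cc {n : ℕ} {α : Type} (r : α → MvPolynomial (Fin n) ℚ)
    (hc : ∀ b, CC (r b)) (j : (Fin n × Bool) ⊕ (((Fin n → Bool) → α) × Bool)) :
    CC (qb r j) := by
  rcases j with ⟨i, b⟩ | ⟨ψ, b⟩
  · exact cc_add (cc_lin _ _) (cc_C _)
  · exact cc_add (cc_rename (cc_es r ψ hc)) (cc_lin _ _)

theorem qb_body {n : ℕ} {α : Type} [Fintype α] [Nonempty α] (r : α → MvPolynomial (Fin n) ℚ) :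
    Pool.Agent.CVol.body (ev (mn r)) =
      {z : Fin (n + 1) → ℝ | ∀ j, (0 : ℝ) ≤ aeval z (qb r j)} := by
  ext z
  have e1 : ∀ i b, (aeval z (qb r (Sum.inl (i, b))) : ℝ) =
      ((sg b : ℚ) : ℝ) * z (Fin.castSucc i) + 1 := by
    intro i b
    show (aeval z (C (sg b) * X (Fin.castSucc i) + C 1 : MvPolynomial (Fin (n + 1)) ℚ) : ℝ) = _
    simp only [map_mul, map_add, aeval_X, algHom_C, eq_ratCast]
    push_cast
    rfl
  have e2 : ∀ ψ b, (aeval z (qb r (Sum.inr (ψ, b))) : ℝ) =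
      (aeval (fun i => z (Fin.castSucc i)) (es r ψ) : ℝ) +
        2 * ((sg b : ℚ) : ℝ) * z (Fin.last n) := by
    intro ψ b
    show (aeval z (rename Fin.castSucc (es r ψ) + C (2 * sg b) * X (Fin.last n) :
      MvPolynomial (Fin (n + 1)) ℚ) : ℝ) = _
    rw [map_add, aeval_rename]
    simp only [map_mul, aeval_X, algHom_C, eq_ratCast]
    push_cast
    rfl
  have s1 : ((sg true : ℚ) : ℝ) = 1 := by simp [sg]
  have s2 : ((sg false : ℚ) : ℝ) = -1 := by simp [sg]
  constructor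
  · rintro ⟨hz1, hz2⟩ j
    rcases j with ⟨i, b⟩ | ⟨ψ, b⟩
    · rw [e1]
      have a1 : -1 ≤ z (Fin.castSucc i) := hz1.1 i
      have a2 : z (Fin.castSucc i) ≤ 1 := hz1.2 i
      rcases sg_cases b with h | h <;> rw [h] <;> linarith
    · rw [e2]
      have a3 : 2 * |z (Fin.last n)| ≤
          (aeval (fun i => z (Fin.castSucc i)) (es r ψ) : ℝ) := by
        refine hz2.trans ?_
        rw [← iInf_es]
        exact ciInf_le (Set.finite_range _).bddBelow ψ
      have a4 := le_abs_self (z (Fin.last n))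
      have a5 := neg_abs_le (z (Fin.last n))
      rcases sg_cases b with h | h <;> rw [h] <;> linarith
  · intro hz
    refine ⟨⟨fun i => ?_, fun i => ?_⟩, ?_⟩
    · show -1 ≤ z (Fin.castSucc i)
      have h := hz (Sum.inl (i, true))
      rw [e1, s1] at h
      linarith
    · show z (Fin.castSucc i) ≤ 1
      have h := hz (Sum.inl (i, false))
      rw [e1, s2] at h
      linarith
    · rw [← iInf_es]
      refine le_ciInf fun ψ => ?_
      have h1 := hz (Sum.inr (ψ, true))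
      have h2 := hz (Sum.inr (ψ, false))
      rw [e2, s1] at h1
      rw [e2, s2] at h2
      rcases abs_cases (z (Fin.last n)) with ⟨h, _⟩ | ⟨h, _⟩ <;> rw [h] <;> linarith

theorem ev_concave {n : ℕ} {α : Type} [Fintype α] [Nonempty α]
    (r : α → MvPolynomial (Fin n) ℚ) (hc : ∀ b, CC (r b)) :
    ConcaveOn ℝ (box (Fin n)) (ev (mn r)) := by
  refine ⟨convex_Icc _ _, fun x _ y _ a b ha hb hab => ?_⟩
  rw [← iInf_es, ← iInf_es, ← iInf_es]
  refine le_ciInf fun ψ => ?_
  have h := (cc_es r ψ hc).2 (Set.mem_univ x) (Set.mem_univ y) ha hb hab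
  refine le_trans (add_le_add ?_ ?_) h
  · exact mul_le_mul_of_nonneg_left (ciInf_le (Set.finite_range _).bddBelow ψ) ha
  · exact mul_le_mul_of_nonneg_left (ciInf_le (Set.finite_range _).bddBelow ψ) hb

/-- Integrals over the cube of positive minima of concave quadratic polynomials are volumes of
unit balls of norms given by concave quadratic inequalities. -/
theorem norm57 (x : ℝ) (_hx : 0 < x) {n : ℕ} {α : Type} [Fintype α] [Nonempty α]
    (r : α → MvPolynomial (Fin n) ℚ) (hd : ∀ b, (r b).totalDegree ≤ 2)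
    (hc : ∀ b, ConcaveOn ℝ Set.univ fun z : Fin n → ℝ => (aeval z (r b) : ℝ))
    (hp : ∀ z ∈ Set.Icc (0 : Fin n → ℝ) 1, ∀ b, (0 : ℝ) < aeval z (r b))
    (hi : (∫ z in Set.Icc (0 : Fin n → ℝ) 1, ⨅ b, (aeval z (r b) : ℝ)) = x) :
    ∃ (N m : ℕ) (q : Fin m → MvPolynomial (Fin N) ℚ) (p : Seminorm ℝ (Fin N → ℝ)),
      (∀ j, (q j).totalDegree ≤ 2 ∧
        ConcaveOn ℝ Set.univ fun z : Fin N → ℝ => (aeval z (q j) : ℝ)) ∧
      (∀ z, p z = 0 → z = 0) ∧
      (∀ z ε : Fin N → ℝ, (∀ i, ε i = 1 ∨ ε i = -1) → p (fun i => ε i * z i) = p z) ∧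
      {z | p z ≤ 1} = {z | ∀ j, (0 : ℝ) ≤ aeval z (q j)} ∧
      volume {z | p z ≤ 1} = ENNReal.ofReal x := by
  have hcont : Continuous (ev (mn r)) := ev_cont (cont_mn r)
  have hpos : ∀ z ∈ box (Fin n), 0 < ev (mn r) z := by
    intro z hz
    refine ev_pos (fun y hy => ?_) hz
    obtain ⟨b, hb⟩ := exists_eq_ciInf_of_finite (f := fun b => (aeval y (r b) : ℝ))
    show 0 < ⨅ b, (aeval y (r b) : ℝ)
    rw [← hb]
    exact hp y hy b
  have hint : ∫ z in box (Fin n), ev (mn r) z = x := by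
    rw [int_ev (cont_mn r)]
    exact hi
  obtain ⟨p, h1, h2, h3⟩ := Pool.Agent.CVol.exists_norm (Pool.Agent.CVol.body (ev (mn r)))
    (Pool.Agent.CVol.body_compact hcont)
    (Pool.Agent.CVol.body_convex (ev_concave r hc))
    (Pool.Agent.CVol.body_nhds hcont hpos)
    (fun z hz ε hε => Pool.Agent.CVol.body_sign (fun δ hδ w => ev_sign (mn r) δ hδ w) ε hε z hz)
  let J : Type := (Fin n × Bool) ⊕ (((Fin n → Bool) → α) × Bool)
  let f : Fin (Fintype.card J) ≃ J := (Fintype.equivFin J).symm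
  refine ⟨n + 1, Fintype.card J, fun j => qb r (f j), p, fun j => ⟨qb_deg r hd _, qb_cc r hc _⟩,
    h1, h2, ?_, ?_⟩
  · rw [h3, qb_body]
    ext z
    constructor
    · intro h j
      exact h (f j)
    · intro h j
      have h4 : (0 : ℝ) ≤ aeval z (qb r (f (f.symm j))) := h (f.symm j)
      rwa [Equiv.apply_symm_apply] at h4
  · rw [h3, Pool.Agent.CVol.body_volume hcont hpos, hint]

end Pool.Agent.MinQ57
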