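import Mathlib

/-!
# MP_2cf66e_nt: the integral which removes the numerator (helper57)
-/

set_option autoImplicit false

noncomputable section

open MeasureTheory Set Filter Topology

namespace Pool.Agent.W_2cf66e_h57

theorem den_pos57 (w b : ℝ) : 0 < (1 - w * b ^ 2) ^ 2 + b ^ 2 := by
  by_cases hb : b = 0
  · subst hb; norm_num
  · have := sq_pos_of_ne_zero hb
    positivity

theorem den_bd57 {w : ℝ} (hw : 0 < w) : ∃ C : ℝ, 0 < C ∧ ∀ b : ℝ,
    (1 + b ^ 2) ^ 2 ≤ C * ((1 - w * b ^ 2) ^ 2 + b ^ 2) := by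
  refine ⟨(4 + 2 * w) + 2 + (10 + 4 * w) / w ^ 2, by positivity, fun b => ?_⟩
  set s := b ^ 2 with hs
  have s0 : 0 ≤ s := sq_nonneg b
  set q := (1 - w * s) ^ 2 + s with hq
  have q1 : s ≤ q := by rw [hq]; nlinarith [sq_nonneg (1 - w * s)]
  have q0 : 0 ≤ q := le_trans s0 q1
  have h1 : 1 ≤ (4 + 2 * w) * q := by
    have h2 : 1 ≤ 4 * (1 - w * s) ^ 2 + 2 * (w * s) := by nlinarith [sq_nonneg (4 * (w * s) - 3)]
    have h3 : (1 - w * s) ^ 2 ≤ q := by rw [hq]; linarith
    have h4 : w * s ≤ w * q := mul_le_mul_of_nonneg_left q1 hw.le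
    nlinarith
  have h2 : w ^ 2 * s ^ 2 ≤ (10 + 4 * w) * q := by
    have h3 : (1 - w * s) ^ 2 ≤ q := by rw [hq]; linarith
    have h4 : w ^ 2 * s ^ 2 ≤ 2 + 2 * (1 - w * s) ^ 2 := by nlinarith [sq_nonneg (w * s - 2)]
    nlinarith
  have h3 : s ^ 2 ≤ (10 + 4 * w) / w ^ 2 * q := by
    rw [div_mul_eq_mul_div, le_div_iff₀ (by positivity)]
    linarith
  nlinarith

theorem int_inv57 : Integrable fun b : ℝ => 1 / (1 + b ^ 2) := by
  simpa using integrable_inv_one_add_sq

theorem recip57 {u w : ℝ} (hu : 0 < u) (huw : u ≤ w) (hw : 1 < 4 * w) :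
    Integrable (fun b : ℝ => 1 / ((1 + u ^ 2 * b ^ 2) * ((1 - w * b ^ 2) ^ 2 + b ^ 2))) ∧
    ∫ b : ℝ, 1 / ((1 + u ^ 2 * b ^ 2) * ((1 - w * b ^ 2) ^ 2 + b ^ 2)) =
      Real.pi * (u + w) / (u ^ 2 + u + w) := by
  have hw0 : 0 < w := by linarith
  have hint : Integrable
      (fun b : ℝ => 1 / ((1 + u ^ 2 * b ^ 2) * ((1 - w * b ^ 2) ^ 2 + b ^ 2))) := by
    obtain ⟨C, hC, hb⟩ := den_bd57 hw0
    refine Integrable.mono' (int_inv57.const_mul C) ?_ ?_
    · refine Continuous.aestronglyMeasurable ?_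
      refine continuous_const.div (by fun_prop) fun b => ?_
      have := den_pos57 w b
      positivity
    · refine Filter.Eventually.of_forall fun b => ?_
      have h1 := den_pos57 w b
      rw [Real.norm_eq_abs, abs_of_pos (by positivity)]
      rw [mul_one_div, div_le_div_iff₀ (by positivity) (by positivity)]
      have h2 := hb b
      have h3 : 1 + b ^ 2 ≤ (1 + b ^ 2) ^ 2 := by nlinarith [sq_nonneg b]
      have h4 : (1 - w * b ^ 2) ^ 2 + b ^ 2 ≤
          (1 + u ^ 2 * b ^ 2) * ((1 - w * b ^ 2) ^ 2 + b ^ 2) := by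
        have : 0 ≤ u ^ 2 * b ^ 2 := by positivity
        nlinarith
      calc 1 * (1 + b ^ 2) ≤ (1 + b ^ 2) ^ 2 := by linarith
        _ ≤ C * ((1 - w * b ^ 2) ^ 2 + b ^ 2) := h2
        _ ≤ _ := mul_le_mul_of_nonneg_left h4 hC.le
  refine ⟨hint, ?_⟩
  set s := Real.sqrt (4 * w - 1) with hs
  have s2 : s ^ 2 = 4 * w - 1 := Real.sq_sqrt (by linarith)
  have s0 : 0 < s := Real.sqrt_pos.2 (by linarith)
  have hp : ∀ b : ℝ, 0 < w * b ^ 2 + s * b + 1 := fun b => by
    nlinarith [sq_nonneg (2 * w * b + s), sq_nonneg b]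
  have hm : ∀ b : ℝ, 0 < w * b ^ 2 - s * b + 1 := fun b => by
    nlinarith [sq_nonneg (2 * w * b - s), sq_nonneg b]
  have hfac : ∀ b : ℝ, (1 - w * b ^ 2) ^ 2 + b ^ 2 =
      (w * b ^ 2 + s * b + 1) * (w * b ^ 2 - s * b + 1) := fun b => by
    have : (w * b ^ 2 + s * b + 1) * (w * b ^ 2 - s * b + 1) =
      (w * b ^ 2 + 1) ^ 2 - s ^ 2 * b ^ 2 := by ring
    rw [this, s2]; ring
  have k1 : 0 < w + u ^ 2 - u := by nlinarith [sq_nonneg u]
  have k2 : 0 < w + u ^ 2 + u := by positivity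
  set α := u ^ 4 / ((w + u ^ 2 - u) * (w + u ^ 2 + u)) with hα
  set β := -(α * w ^ 2 / u ^ 2) with hβ
  set γ := 1 - α with hγ
  set F : ℝ → ℝ := fun b => α / u * Real.arctan (u * b) +
    β / (2 * w) * ((Real.arctan (2 * w * b + s) + Real.arctan (2 * w * b - s)) -
      1 / (2 * s) * (Real.log (w * b ^ 2 + s * b + 1) - Real.log (w * b ^ 2 - s * b + 1))) +
    γ / 2 * ((Real.arctan (2 * w * b + s) + Real.arctan (2 * w * b - s)) +
      1 / (2 * s) * (Real.log (w * b ^ 2 + s * b + 1) - Real.log (w * b ^ 2 - s * b + 1)))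
    with hF
  have hder : ∀ b : ℝ, HasDerivAt F
      (1 / ((1 + u ^ 2 * b ^ 2) * ((1 - w * b ^ 2) ^ 2 + b ^ 2))) b := by
    intro b
    have d1 : HasDerivAt (fun b : ℝ => Real.arctan (u * b)) (1 / (1 + (u * b) ^ 2) * u) b := by
      have := ((hasDerivAt_id b).const_mul u).arctan
      simpa using this
    have d2 : HasDerivAt (fun b : ℝ => Real.arctan (2 * w * b + s))
        (1 / (1 + (2 * w * b + s) ^ 2) * (2 * w)) b := by
      have := (((hasDerivAt_id b).const_mul (2 * w)).add_const s).arctan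
      simpa using this
    have d3 : HasDerivAt (fun b : ℝ => Real.arctan (2 * w * b - s))
        (1 / (1 + (2 * w * b - s) ^ 2) * (2 * w)) b := by
      have := (((hasDerivAt_id b).const_mul (2 * w)).sub_const s).arctan
      simpa using this
    have d4 : HasDerivAt (fun b : ℝ => Real.log (w * b ^ 2 + s * b + 1))
        ((w * (2 * b) + s) / (w * b ^ 2 + s * b + 1)) b := by
      have h1 : HasDerivAt (fun b : ℝ => w * b ^ 2 + s * b + 1) (w * (2 * b) + s) b := by
        have := (((hasDerivAt_pow 2 b).const_mul w).add ((hasDerivAt_id b).const_mul s)).add_const 1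
        simpa using this
      exact h1.log (hp b).ne'
    have d5 : HasDerivAt (fun b : ℝ => Real.log (w * b ^ 2 - s * b + 1))
        ((w * (2 * b) - s) / (w * b ^ 2 - s * b + 1)) b := by
      have h1 : HasDerivAt (fun b : ℝ => w * b ^ 2 - s * b + 1) (w * (2 * b) - s) b := by
        have := (((hasDerivAt_pow 2 b).const_mul w).sub ((hasDerivAt_id b).const_mul s)).add_const 1
        simpa using this
      exact h1.log (hm b).ne'
    have dH := d2.add d3
    have dG := (d4.sub d5).const_mul (1 / (2 * s))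
    have dF := ((d1.const_mul (α / u)).add ((dH.sub dG).const_mul (β / (2 * w)))).add
      ((dH.add dG).const_mul (γ / 2))
    have e1 : 1 / (1 + (2 * w * b + s) ^ 2) * (2 * w) = 1 / (2 * (w * b ^ 2 + s * b + 1)) := by
      have : 1 + (2 * w * b + s) ^ 2 = 4 * w * (w * b ^ 2 + s * b + 1) := by
        have : (2 * w * b + s) ^ 2 = 4 * w ^ 2 * b ^ 2 + 4 * w * s * b + s ^ 2 := by ring
        rw [this, s2]; ring
      rw [this]
      have := (hp b).ne'
      field_simp
      norm_num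
    have e2 : 1 / (1 + (2 * w * b - s) ^ 2) * (2 * w) = 1 / (2 * (w * b ^ 2 - s * b + 1)) := by
      have : 1 + (2 * w * b - s) ^ 2 = 4 * w * (w * b ^ 2 - s * b + 1) := by
        have : (2 * w * b - s) ^ 2 = 4 * w ^ 2 * b ^ 2 - 4 * w * s * b + s ^ 2 := by ring
        rw [this, s2]; ring
      rw [this]
      have := (hm b).ne'
      field_simp
      norm_num
    have eH : 1 / (1 + (2 * w * b + s) ^ 2) * (2 * w) + 1 / (1 + (2 * w * b - s) ^ 2) * (2 * w) =
        (1 + w * b ^ 2) / ((1 - w * b ^ 2) ^ 2 + b ^ 2) := by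
      rw [e1, e2, hfac]
      have h1 := (hp b).ne'
      have h2 := (hm b).ne'
      have h3 : 1 + w * b ^ 2 = ((w * b ^ 2 + s * b + 1) + (w * b ^ 2 - s * b + 1)) / 2 := by ring
      rw [h3]
      generalize w * b ^ 2 + s * b + 1 = P at h1 ⊢
      generalize w * b ^ 2 - s * b + 1 = M at h2 ⊢
      field_simp
      ring
    have eG : 1 / (2 * s) * ((w * (2 * b) + s) / (w * b ^ 2 + s * b + 1) -
        (w * (2 * b) - s) / (w * b ^ 2 - s * b + 1)) =
        (1 - w * b ^ 2) / ((1 - w * b ^ 2) ^ 2 + b ^ 2) := by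
      rw [hfac]
      have h1 := (hp b).ne'
      have h2 := (hm b).ne'
      have h3 : (w * (2 * b) + s) * (w * b ^ 2 - s * b + 1) -
          (w * b ^ 2 + s * b + 1) * (w * (2 * b) - s) = (1 - w * b ^ 2) * (2 * s) := by ring
      rw [div_sub_div _ _ h1 h2, h3]
      generalize (w * b ^ 2 + s * b + 1) = P at h1 ⊢
      generalize (w * b ^ 2 - s * b + 1) = M at h2 ⊢
      field_simp
    rw [eH, eG] at dF
    refine dF.congr_deriv ?_
    have hD := (den_pos57 w b).ne'
    have hU : (1 + u ^ 2 * b ^ 2) ≠ 0 := by positivity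
    have hU' : (1 + (u * b) ^ 2) = 1 + u ^ 2 * b ^ 2 := by ring
    rw [hU', hβ, hγ, hα]
    have k1' := k1.ne'
    have k2' := k2.ne'
    field_simp
    ring
  have hG : ∀ l : Filter ℝ, Tendsto (fun b : ℝ => b⁻¹) l (𝓝 0) → (∀ᶠ b in l, b ≠ 0) →
      Tendsto (fun b : ℝ => 1 / (2 * s) *
        (Real.log (w * b ^ 2 + s * b + 1) - Real.log (w * b ^ 2 - s * b + 1))) l (𝓝 0) := by
    intro l hl hne
    have h1 : Tendsto (fun b : ℝ => (w + s * b⁻¹ + (b⁻¹) ^ 2) / (w - s * b⁻¹ + (b⁻¹) ^ 2)) l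
        (𝓝 ((w + s * 0 + 0 ^ 2) / (w - s * 0 + 0 ^ 2))) := by
      refine Tendsto.div ((tendsto_const_nhds.add (hl.const_mul s)).add (hl.pow 2))
        ((tendsto_const_nhds.sub (hl.const_mul s)).add (hl.pow 2)) ?_
      simp [hw0.ne']
    have h2 : (w + s * 0 + 0 ^ 2) / (w - s * 0 + 0 ^ 2) = 1 := by
      simp [hw0.ne']
    rw [h2] at h1
    have h3 := (Real.continuousAt_log one_ne_zero).tendsto.comp h1
    rw [Real.log_one] at h3
    have h4 := h3.const_mul (1 / (2 * s))
    rw [mul_zero] at h4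
    refine h4.congr' ?_
    filter_upwards [hne] with b hb
    simp only [Function.comp]
    rw [← Real.log_div (hp b).ne' (hm b).ne']
    congr 2
    rw [div_eq_div_iff _ (hm b).ne']
    · field_simp
    · have : w - s * b⁻¹ + b⁻¹ ^ 2 = (w * b ^ 2 - s * b + 1) / b ^ 2 := by field_simp
      rw [this]
      exact div_ne_zero (hm b).ne' (pow_ne_zero 2 hb)
  have aT : Tendsto Real.arctan atTop (𝓝 (Real.pi / 2)) :=
    Real.tendsto_arctan_atTop.mono_right nhdsWithin_le_nhds
  have aB : Tendsto Real.arctan atBot (𝓝 (-(Real.pi / 2))) :=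
    Real.tendsto_arctan_atBot.mono_right nhdsWithin_le_nhds
  have t1 : Tendsto (fun b : ℝ => u * b) atTop atTop := tendsto_id.const_mul_atTop hu
  have t2 : Tendsto (fun b : ℝ => 2 * w * b + s) atTop atTop :=
    tendsto_atTop_add_const_right _ _ (tendsto_id.const_mul_atTop (by positivity))
  have t3 : Tendsto (fun b : ℝ => 2 * w * b - s) atTop atTop := by
    simpa [sub_eq_add_neg] using tendsto_atTop_add_const_right _ (-s)
      (tendsto_id.const_mul_atTop (show (0 : ℝ) < 2 * w by positivity))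
  have r1 : Tendsto (fun b : ℝ => u * b) atBot atBot := tendsto_id.const_mul_atBot hu
  have r2 : Tendsto (fun b : ℝ => 2 * w * b + s) atBot atBot :=
    tendsto_atBot_add_const_right _ _ (tendsto_id.const_mul_atBot (by positivity))
  have r3 : Tendsto (fun b : ℝ => 2 * w * b - s) atBot atBot := by
    simpa [sub_eq_add_neg] using tendsto_atBot_add_const_right _ (-s)
      (tendsto_id.const_mul_atBot (show (0 : ℝ) < 2 * w by positivity))
  have gT := hG atTop tendsto_inv_atTop_zero (eventually_ne_atTop 0)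
  have gB := hG atBot tendsto_inv_atBot_zero (eventually_ne_atBot 0)
  have lT : Tendsto F atTop (𝓝 (α / u * (Real.pi / 2) +
      β / (2 * w) * ((Real.pi / 2 + Real.pi / 2) - 0) +
      γ / 2 * ((Real.pi / 2 + Real.pi / 2) + 0))) :=
    (((aT.comp t1).const_mul _).add ((((aT.comp t2).add (aT.comp t3)).sub gT).const_mul _)).add
      ((((aT.comp t2).add (aT.comp t3)).add gT).const_mul _)
  have lB : Tendsto F atBot (𝓝 (α / u * (-(Real.pi / 2)) +
      β / (2 * w) * ((-(Real.pi / 2) + -(Real.pi / 2)) - 0) +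
      γ / 2 * ((-(Real.pi / 2) + -(Real.pi / 2)) + 0))) :=
    (((aB.comp r1).const_mul _).add ((((aB.comp r2).add (aB.comp r3)).sub gB).const_mul _)).add
      ((((aB.comp r2).add (aB.comp r3)).add gB).const_mul _)
  rw [integral_of_hasDerivAt_of_tendsto hder hint lB lT]
  have k1' := k1.ne'
  have k2' := k2.ne'
  have k3 : u ^ 2 + u + w ≠ 0 := by positivity
  have key : α / u + β / w + γ = (u + w) / (u ^ 2 + u + w) := by
    rw [hβ, hγ, hα]
    field_simp
    ring
  calc _ = Real.pi * (α / u + β / w + γ) := by field_simp; ring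
    _ = _ := by rw [key]; ring

end Pool.Agent.W_2cf66e_h57
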