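import Pool.Agent.W_2cf66e_h57.Body57
import Pool.Agent.W_2cf66e_h46.Defs

/-!
# MP_2cf66e_nt (periods), minima of quadratic polynomials: from the cube `[-1,1]^ι` to the cube
`[0,1]^n` (helper57)
-/

set_option autoImplicit false

noncomputable section

open MeasureTheory MvPolynomial
open scoped Pointwise Classical

namespace Pool.Agent.MinQ57

variable {ι : Type} [Fintype ι]

/-- Change of variables `z = 2 y - 1`. -/
theorem int_box_unit (g : (ι → ℝ) → ℝ) :
    ∫ z in Pool.Agent.QVol.box ι, g z =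
      2 ^ Fintype.card ι * ∫ y in Set.Icc (0 : ι → ℝ) 1, g (fun i => 2 * y i - 1) := by
  have h1 : ∀ y : ι → ℝ, g (fun i => 2 * y i - 1) =
      (fun x => g (x + fun _ => (-1 : ℝ))) ((2 : ℝ) • y) := by
    intro y
    show g _ = g _
    congr 1
  simp_rw [h1]
  rw [Measure.setIntegral_comp_smul volume (fun x => g (x + fun _ => (-1 : ℝ)))
    (Set.Icc (0 : ι → ℝ) 1) two_ne_zero, Module.finrank_fintype_fun_eq_card]
  have h2 : (2 : ℝ) • Set.Icc (0 : ι → ℝ) 1 =
      (fun x => x + fun _ => (-1 : ℝ)) ⁻¹' Pool.Agent.QVol.box ι := by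
    ext x
    rw [Set.mem_smul_set_iff_inv_smul_mem₀ two_ne_zero]
    show ((0 : ι → ℝ) ≤ (2 : ℝ)⁻¹ • x ∧ (2 : ℝ)⁻¹ • x ≤ 1) ↔
      ((fun _ => (-1 : ℝ)) ≤ (x + fun _ => (-1 : ℝ)) ∧ (x + fun _ => (-1 : ℝ)) ≤ fun _ => (1 : ℝ))
    simp only [Pi.le_def, Pi.smul_apply, smul_eq_mul, Pi.add_apply, Pi.zero_apply, Pi.one_apply]
    constructor
    · rintro ⟨a, b⟩
      exact ⟨fun i => by linarith [a i], fun i => by linarith [b i]⟩
    · rintro ⟨a, b⟩
      exact ⟨fun i => by linarith [a i], fun i => by linarith [b i]⟩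
  rw [h2, MeasurePreserving.setIntegral_preimage_emb
    (measurePreserving_add_right volume fun _ : ι => (-1 : ℝ))
    (measurableEmbedding_addRight _) g (Pool.Agent.QVol.box ι), smul_eq_mul, ← mul_assoc]
  have h3 : (2 : ℝ) ^ Fintype.card ι * |((2 : ℝ) ^ Fintype.card ι)⁻¹| = 1 := by
    rw [abs_of_pos (by positivity), mul_inv_cancel₀ (by positivity)]
  rw [h3, one_mul]

/-- The substitution `X_i ↦ 2 X_i - 1`. -/
def sb (p : MvPolynomial ι ℚ) : MvPolynomial ι ℚ := bind₁ (fun i => C 2 * X i + C (-1)) p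

theorem aeval_sb (p : MvPolynomial ι ℚ) (y : ι → ℝ) :
    (aeval y (sb p) : ℝ) = aeval (fun i => 2 * y i - 1) p := by
  unfold sb
  rw [aeval_bind₁]
  congr 2
  funext i
  simp only [map_mul, map_add, aeval_X, algHom_C, eq_ratCast]
  push_cast
  ring

theorem deg_sb (p : MvPolynomial ι ℚ) : (sb p).totalDegree ≤ p.totalDegree := by
  refine deg_bind _ (fun i => ?_) p
  refine (totalDegree_add _ _).trans (max_le ?_ ?_)
  · refine (totalDegree_mul _ _).trans ?_
    rw [totalDegree_C, totalDegree_X]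
  · rw [totalDegree_C]
    exact Nat.zero_le _

/-- Reindexing of the coordinates. -/
theorem int_reindex {κ : Type} [Fintype κ] (e : ι ≃ κ) (g : (ι → ℝ) → ℝ) :
    ∫ z in Set.Icc (0 : κ → ℝ) 1, g (fun i => z (e i)) =
      ∫ y in Set.Icc (0 : ι → ℝ) 1, g y := by
  have hm := volume_measurePreserving_piCongrLeft (fun _ : κ => ℝ) e
  have happ : ∀ (y : ι → ℝ) (i : ι),
      (MeasurableEquiv.piCongrLeft (fun _ : κ => ℝ) e) y (e i) = y i := by
    intro y i
    rw [MeasurableEquiv.coe_piCongrLeft]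
    exact Equiv.piCongrLeft_apply_apply (fun _ : κ => ℝ) e y i
  rw [← hm.setIntegral_preimage_emb (MeasurableEquiv.measurableEmbedding _)
    (fun z => g (fun i => z (e i))) (Set.Icc (0 : κ → ℝ) 1)]
  have hset : (⇑(MeasurableEquiv.piCongrLeft (fun _ : κ => ℝ) e)) ⁻¹' Set.Icc (0 : κ → ℝ) 1 =
      Set.Icc (0 : ι → ℝ) 1 := by
    ext y
    rw [Set.mem_preimage, Set.mem_Icc, Set.mem_Icc]
    constructor
    · rintro ⟨a, b⟩
      exact ⟨fun i => by have := a (e i); rwa [happ] at this,
        fun i => by have := b (e i); rwa [happ] at this⟩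
    · rintro ⟨a, b⟩
      refine ⟨fun k => ?_, fun k => ?_⟩
      · obtain ⟨i, rfl⟩ := e.surjective k
        rw [happ]
        exact a i
      · obtain ⟨i, rfl⟩ := e.surjective k
        rw [happ]
        exact b i
  rw [hset]
  refine setIntegral_congr_fun measurableSet_Icc fun y _ => ?_
  show g _ = g y
  congr 1
  funext i
  exact happ y i

/-- From the cube `[-1,1]^ι` and a supremum to the cube `[0,1]^n` and a minimum. -/
theorem unit57 {α : Type} [Fintype α] [Nonempty α] (r : α → MvPolynomial ι ℚ) (c : ℚ)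
    (hr : ∀ a, (r a).totalDegree ≤ 2) :
    ∃ (n m : ℕ) (q : Fin (m + 1) → MvPolynomial (Fin n) ℚ), (∀ j, (q j).totalDegree ≤ 2) ∧
      (c : ℝ) - ∫ z in Pool.Agent.QVol.box ι, ⨆ a, (aeval z (r a) : ℝ) =
        ∫ z in Set.Icc (0 : Fin n → ℝ) 1, ⨅ j, (aeval z (q j) : ℝ) := by
  obtain ⟨m, hm⟩ : ∃ m, Fintype.card α = m + 1 := ⟨Fintype.card α - 1, by
    have := Fintype.card_pos (α := α)
    omega⟩
  let f : Fin (m + 1) ≃ α := (Fintype.equivFinOfCardEq hm).symm
  let e : ι ≃ Fin (Fintype.card ι) := Fintype.equivFin ι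
  set N : ℚ := 2 ^ Fintype.card ι with hN
  refine ⟨Fintype.card ι, m, fun j => rename e (C c - C N * sb (r (f j))), fun j => ?_, ?_⟩
  · refine (totalDegree_rename_le _ _).trans ?_
    refine (totalDegree_sub _ _).trans (max_le ?_ ?_)
    · rw [totalDegree_C]
      exact Nat.zero_le _
    · refine (totalDegree_mul _ _).trans ?_
      rw [totalDegree_C, zero_add]
      exact (deg_sb _).trans (hr _)
  · have h1 : ∀ z : Fin (Fintype.card ι) → ℝ,
        (⨅ j, (aeval z (rename e (C c - C N * sb (r (f j)))) : ℝ)) =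
          (fun y : ι → ℝ => (c : ℝ) - 2 ^ Fintype.card ι *
            ⨆ a, (aeval (fun i => 2 * y i - 1) (r a) : ℝ)) (fun i => z (e i)) := by
      intro z
      have h2 : ∀ j, (aeval z (rename e (C c - C N * sb (r (f j)))) : ℝ) =
          (c : ℝ) - 2 ^ Fintype.card ι *
            (aeval (fun i => 2 * z (e i) - 1) (r (f j)) : ℝ) := by
        intro j
        rw [aeval_rename, map_sub, map_mul, aeval_sb]
        simp only [algHom_C, eq_ratCast, hN, Function.comp_apply]
        push_cast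
        rfl
      simp_rw [h2]
      have h3 : (⨆ a, (aeval (fun i => 2 * z (e i) - 1) (r a) : ℝ)) =
          ⨆ j, (aeval (fun i => 2 * z (e i) - 1) (r (f j)) : ℝ) :=
        (f.surjective.iSup_comp _).symm
      rw [h3]
      have hp : (0 : ℝ) < 2 ^ Fintype.card ι := by positivity
      obtain ⟨j₀, hj₀⟩ := exists_eq_ciSup_of_finite
        (f := fun j => (aeval (fun i => 2 * z (e i) - 1) (r (f j)) : ℝ))
      apply le_antisymm
      · rw [← hj₀]
        exact ciInf_le (Set.finite_range _).bddBelow j₀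
      · refine le_ciInf fun j => ?_
        refine sub_le_sub_left (mul_le_mul_of_nonneg_left ?_ hp.le) _
        exact le_ciSup (f := fun j => (aeval (fun i => 2 * z (e i) - 1) (r (f j)) : ℝ))
          (Set.finite_range _).bddAbove j
    simp_rw [h1]
    rw [int_reindex e (fun y : ι → ℝ => (c : ℝ) - 2 ^ Fintype.card ι *
            ⨆ a, (aeval (fun i => 2 * y i - 1) (r a) : ℝ)), int_box_unit]
    have hcont : Continuous fun y : ι → ℝ => ⨆ a, (aeval (fun i => 2 * y i - 1) (r a) : ℝ) := by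
      have h4 : (fun y : ι → ℝ => ⨆ a, (aeval (fun i => 2 * y i - 1) (r a) : ℝ)) =
          fun y => Finset.univ.sup' Finset.univ_nonempty
            fun a => (aeval (fun i => 2 * y i - 1) (r a) : ℝ) := by
        funext y
        rw [Finset.sup'_univ_eq_ciSup]
      rw [h4]
      refine Continuous.finset_sup'_apply _ fun a _ => ?_
      exact (cont_aeval (r a)).comp (by fun_prop)
    rw [integral_sub, setIntegral_const, measureReal_def, vol_cube, integral_const_mul]
    · simp
    · exact integrableOn_const (by rw [vol_cube]; exact ENNReal.one_ne_top)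
    · exact (hcont.const_mul _).integrableOn_Icc

end Pool.Agent.MinQ57
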